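import Pool.Agent.H10.FTM.Fill

/-!
# Filling the times: theorems for classes of labels

If the label theorem for live times holds for some class `C₁` of labels, and the label theorem for
uniform times holds for a class `C₂`, then the label theorem for live times holds for `C₂`.
-/

set_option autoImplicit false

namespace Pool.FTM

open Finset Real
open Pool.Agent.H49.Ent Pool.Agent.H32.Dense Pool.STK Pool.KA Pool.KM7

variable {m : ℕ}

/-- A class of labels for lines. -/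
structure LC (m : ℕ) : Type 1 where
  /-- the values of the labels at resolution `J` -/
  V : ℕ → Type
  /-- the set of the lines with a given label -/
  LL : ∀ J : ℕ, V J → (Fin m → ℝ) × (Fin m → ℝ) → Prop
  /-- the price of a value: the logarithm of the number of the cells in the sections -/
  c : ∀ J : ℕ, V J → ℝ

/-- A copy of the family has a label with cost at most `x`. -/
def LC.Has (C : LC m) {J : ℕ} (F : Fam m J) (x : ℝ) : Prop :=
  ∃ (E : Type) (_ : Fintype E) (p' : E → ℝ) (pr : E → F.Ω) (B : E → C.V J),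
    IsLaw p' ∧ Psh p' pr F.p ∧ (∀ e, 0 < p' e → C.LL J (B e) (F.l (pr e))) ∧
    CH p' B (fun e => F.Z (pr e)) + Ex p' (fun e => C.c J (B e)) ≤ x

/-- The family itself has a label with cost at most `x`. -/
def LC.Det (C : LC m) {J : ℕ} (F : Fam m J) (x : ℝ) : Prop :=
  ∃ B : F.Ω → C.V J, (∀ ω, 0 < F.p ω → C.LL J (B ω) (F.l ω)) ∧
    CH F.p B F.Z + Ex F.p (fun ω => C.c J (B ω)) ≤ x

/-- The price bounds the logarithm of the number of the cells in the sections. -/
def LC.Vol (C : LC m) : Prop :=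
  ∀ ε : ℝ, 0 < ε → ∃ J₀ : ℕ, ∀ J ≥ J₀, ∃ S : C.V J → ℕ → Finset (Fin m → ℤ),
    ∀ v : C.V J, ∀ t : ℕ, t < 2 ^ J →
      (∀ l : (Fin m → ℝ) × (Fin m → ℝ), C.LL J v l →
        fl J (fun i => l.1 i + (t : ℝ) / 2 ^ J * l.2 i) ∈ S v t) ∧
      Real.log ((S v t).card) ≤ C.c J v + ε * J

theorem LC.Has.mono {C : LC m} {J : ℕ} {F : Fam m J} {x x' : ℝ} (h : C.Has F x) (hx : x ≤ x') :
    C.Has F x' := by
  obtain ⟨E, hE, p', pr, B, h1, h2, h3, h4⟩ := h
  exact ⟨E, hE, p', pr, B, h1, h2, h3, h4.trans hx⟩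

theorem LC.Det.has {C : LC m} {J : ℕ} {F : Fam m J} {x : ℝ} (h : C.Det F x) : C.Has F x := by
  obtain ⟨B, h1, h2⟩ := h
  exact ⟨F.Ω, F.fin, F.p, fun ω => ω, B, F.isLaw, Psh.id F.p, h1, h2⟩

/-- A label of the filled family is a label of the family, on a copy. -/
theorem LC.Has.of_fill {C : LC m} {J : ℕ} {F : Fam m J} {x : ℝ} (h : C.Has (fill F) x) :
    C.Has F x := by
  obtain ⟨E, hE, p', pr, B, h1, h2, h3, h4⟩ := h
  exact ⟨E, hE, p', fun e => (pr e).1, B, h1, (fill_psh F).comp h2, h3, h4⟩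

/-- A label of the filled family gives a label of the family. -/
theorem LC.Det.of_fill {C : LC m} {J : ℕ} {F : Fam m J} {x : ℝ} (h : C.Det (fill F) x) :
    C.Det F x := by
  obtain ⟨B, h1, h2⟩ := h
  obtain ⟨i, hi⟩ := fill_choose F B (C.c J)
  refine ⟨fun ω => B (ω, i), fun ω hω => h1 (ω, i) ?_, hi.trans h2⟩
  exact div_pos hω (by positivity)

/-- The filled family of a copy. -/
theorem fill_ext_Vf {J : ℕ} (F : Fam m J) {E : Type} [Fintype E] {p' : E → ℝ} (hp : IsLaw p')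
    {pr : E → F.Ω} (h : Psh p' pr F.p) : (fill (F.ext p' hp pr)).Vf = (fill F).Vf := by
  have hN := two_pos J
  have h1 : CH (fill (F.ext p' hp pr)).p ((fill (F.ext p' hp pr)).X J)
      (fill (F.ext p' hp pr)).W = CH (fill F).p ((fill F).X J) (fill F).W := by
    have e1 : CH (fill (F.ext p' hp pr)).p ((fill (F.ext p' hp pr)).X J)
        (fill (F.ext p' hp pr)).W =
        CH (un (2 ^ J) p') (fun e : E × Fin (2 ^ J) => (fill F).X J (pr e.1, e.2))
          (fun e => (e.2, F.Z (pr e.1))) := by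
      refine CH_congr (un_isLaw hN hp).nonneg (fun _ _ _ _ h => (Prod.ext_iff.mp h).1)
        (fun _ _ _ _ h => (Prod.ext_iff.mp h).1) ?_ ?_
      · intro e e' _ _ h
        have h2 := Prod.ext_iff.mp h
        exact Prod.ext (Fin.ext h2.1) h2.2
      · intro e e' _ _ h
        have h2 := Prod.ext_iff.mp h
        exact Prod.ext (congrArg Fin.val h2.1) h2.2
    have e2 : CH (fill F).p ((fill F).X J) (fill F).W =
        CH (un (2 ^ J) F.p) (fun e : F.Ω × Fin (2 ^ J) => (fill F).X J e)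
          (fun e => (e.2, F.Z e.1)) := by
      refine CH_congr (un_isLaw hN F.isLaw).nonneg (fun _ _ _ _ h => (Prod.ext_iff.mp h).1)
        (fun _ _ _ _ h => (Prod.ext_iff.mp h).1) ?_ ?_
      · intro e e' _ _ h
        have h2 := Prod.ext_iff.mp h
        exact Prod.ext (Fin.ext h2.1) h2.2
      · intro e e' _ _ h
        have h2 := Prod.ext_iff.mp h
        exact Prod.ext (congrArg Fin.val h2.1) h2.2
    have e3 := CH_un hN hp (fun e : E × Fin (2 ^ J) => (fill F).X J (pr e.1, e.2))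
      (fun e => F.Z (pr e.1))
    have e4 := CH_un hN F.isLaw (fun e : F.Ω × Fin (2 ^ J) => (fill F).X J e) (fun e => F.Z e.1)
    rw [e1, e2, e3, e4]
    congr 1
    refine Finset.sum_congr rfl fun i _ => ?_
    exact h.CH_eq (fun ω => (fill F).X J (ω, i)) F.Z
  rw [fill_Vf, fill_Vf, h1]

/-- **(FILL)** The information of the point of the filled family is at most the cost of every
label. -/
theorem LC.Has.fill_le {C : LC m} (hC : C.Vol) {ε : ℝ} (hε : 0 < ε) :
    ∃ J₀ : ℕ, ∀ J ≥ J₀, ∀ (F : Fam m J) (x : ℝ), C.Has F x → (fill F).Vf ≤ x + ε * J := by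
  obtain ⟨J₀, hJ₀⟩ := hC ε hε
  refine ⟨J₀, fun J hJ F x h => ?_⟩
  obtain ⟨S, hS⟩ := hJ₀ J hJ
  obtain ⟨E, hE, p', pr, B, h1, h2, h3, h4⟩ := h
  have h5 := Pool.FTM.fill_le (F.ext p' h1 pr) B S (fun e he t ht =>
    (hS (B e) t ht).1 (F.l (pr e)) (h3 e he))
  rw [fill_ext_Vf F h1 h2] at h5
  have h6 : Ex (fill (F.ext p' h1 pr)).p (fun e => Real.log
      ((S (B e.1) ((fill (F.ext p' h1 pr)).T e)).card)) ≤
      Ex (fill (F.ext p' h1 pr)).p (fun e => C.c J (B e.1) + ε * J) :=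
    Ex_mono (fill (F.ext p' h1 pr)).isLaw.nonneg fun e _ => (hS (B e.1) _ e.2.isLt).2
  have h7 : Ex (fill (F.ext p' h1 pr)).p (fun e => C.c J (B e.1) + ε * J) =
      Ex p' (fun e => C.c J (B e)) + ε * J := by
    rw [Ex_add, Ex_const (fill (F.ext p' h1 pr)).isLaw.sum_one]
    congr 1
    exact (un_psh (two_pos J) p').Ex_eq (fun e => C.c J (B e))
  have h8 : CH (F.ext p' h1 pr).p B (F.ext p' h1 pr).Z = CH p' B (fun e => F.Z (pr e)) := rfl
  linarith

/-! ### Label theorems -/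

/-- **The label theorem for live times**, for the families with the property `Q`. -/
def LKL (Q : ∀ J : ℕ, Fam m J → Prop) (C : LC m) : Prop :=
  ∀ ε > 0, ∃ η > 0, ∀ K : ℕ, ∃ θ > 0, ∃ J₀ : ℕ, ∀ J ≥ J₀, ∀ F : Fam m J, Q J F →
    F.TGD False K η 0 (η * J) (θ * J) → C.Has F (F.Vf + ε * J)

/-- **The label theorem for uniform times**, for the families with the property `Q`. -/
def LKU (Q : ∀ J : ℕ, Fam m J → Prop) (C : LC m) : Prop :=
  ∀ ε > 0, ∃ J₀ : ℕ, ∀ J ≥ J₀, ∀ F : Fam m J, Q J F → F.Tm 0 → C.Has F (F.Vf + ε * J)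

/-- Filling the times does not increase the information of the point, if the times are live. -/
def VVS (Q : ∀ J : ℕ, Fam m J → Prop) : Prop :=
  ∀ ε > 0, ∃ η > 0, ∀ K : ℕ, ∃ θ > 0, ∃ J₀ : ℕ, ∀ J ≥ J₀, ∀ F : Fam m J, Q J F →
    F.TGD False K η 0 (η * J) (θ * J) → (fill F).Vf ≤ F.Vf + ε * J

theorem vvs_of {Q : ∀ J : ℕ, Fam m J → Prop} {C : LC m} (hC : C.Vol) (h : LKL Q C) : VVS Q := by
  intro ε hε
  obtain ⟨η, hη, h1⟩ := h (ε / 2) (half_pos hε)
  obtain ⟨J₁, hJ₁⟩ := LC.Has.fill_le hC (half_pos hε)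
  refine ⟨η, hη, fun K => ?_⟩
  obtain ⟨θ, hθ, J₀, h2⟩ := h1 K
  refine ⟨θ, hθ, max J₀ J₁, fun J hJ F hF hT => ?_⟩
  have h3 := hJ₁ J ((le_max_right _ _).trans hJ) F _
    (h2 J ((le_max_left _ _).trans hJ) F hF hT)
  linarith

/-- **Live times with the class of the uniform times.** -/
theorem lkl_of {Q : ∀ J : ℕ, Fam m J → Prop} (hQ : ∀ (J : ℕ) (F : Fam m J), Q J F → Q J (fill F))
    {C : LC m} (h : VVS Q) (hU : LKU Q C) : LKL Q C := by
  intro ε hε
  obtain ⟨η, hη, h1⟩ := h (ε / 2) (half_pos hε)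
  obtain ⟨J₁, hJ₁⟩ := hU (ε / 2) (half_pos hε)
  refine ⟨η, hη, fun K => ?_⟩
  obtain ⟨θ, hθ, J₀, h2⟩ := h1 K
  refine ⟨θ, hθ, max J₀ J₁, fun J hJ F hF hT => ?_⟩
  have h3 := h2 J ((le_max_left _ _).trans hJ) F hF hT
  have h4 := (hJ₁ J ((le_max_right _ _).trans hJ) (fill F) (hQ J F hF) (fill_Tm F)).of_fill
  exact h4.mono (by linarith)

/-- The class of the labels may be changed. -/
theorem lkl_cls {Q : ∀ J : ℕ, Fam m J → Prop} (hQ : ∀ (J : ℕ) (F : Fam m J), Q J F → Q J (fill F))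
    {C₁ C₂ : LC m} (hC : C₁.Vol) (h : LKL Q C₁) (hU : LKU Q C₂) : LKL Q C₂ :=
  lkl_of hQ (vvs_of hC h) hU

end Pool.FTM
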