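import Pool.Agent.H15.KM7.Defs
import Pool.Agent.H32.Dense.EntX

/-!
# Independent uniform variables

The law `un N p` on `Ω × Fin N` has first marginal `p` and an independent uniform second
coordinate.
-/

set_option autoImplicit false

namespace Pool.FTM

open Finset Real
open Pool.Agent.H49.Ent Pool.Agent.H32.Dense Pool.STK

variable {Ω : Type} [Fintype Ω] {N : ℕ} {S T : Type*}

theorem law_smul (a : ℝ) (p : Ω → ℝ) (X : Ω → S) (s : S) :
    law (fun ω => a * p ω) X s = a * law p X s := by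
  classical
  unfold law
  rw [Finset.mul_sum]
  refine Finset.sum_congr rfl fun ω _ => ?_
  split_ifs <;> simp

theorem H_smul {a : ℝ} (ha : 0 < a) {p : Ω → ℝ} (hp : ∀ ω, 0 ≤ p ω) (X : Ω → S) :
    H (fun ω => a * p ω) X = a * H p X - a * Real.log a * ∑ ω, p ω := by
  unfold H
  rw [mul_neg, Finset.mul_sum, Finset.mul_sum, ← neg_add', neg_inj, ← Finset.sum_add_distrib]
  refine Finset.sum_congr rfl fun ω _ => ?_
  rw [law_smul]
  rcases (hp ω).eq_or_lt with h0 | h0
  · simp [h0.symm]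
  · rw [Real.log_mul ha.ne' (law_pos hp X h0).ne']
    ring

theorem CH_smul {a : ℝ} (ha : 0 < a) {p : Ω → ℝ} (hp : ∀ ω, 0 ≤ p ω) (X : Ω → S) (Z : Ω → T) :
    CH (fun ω => a * p ω) X Z = a * CH p X Z := by
  unfold CH
  rw [H_smul ha hp, H_smul ha hp]
  ring

theorem law_sl {ι : Type} [Fintype ι] (Q : Ω × ι → ℝ) (f : Ω × ι → S) (s : S) (i : ι) :
    law Q (fun w => (w.2, f w)) (i, s) = law (fun ω => Q (ω, i)) (fun ω => f (ω, i)) s := by
  classical
  unfold law
  rw [Fintype.sum_prod_type]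
  refine Finset.sum_congr rfl fun ω _ => ?_
  simp only [Prod.mk.injEq]
  rw [Finset.sum_eq_single i]
  · simp
  · intro j _ hj
    rw [if_neg fun h => hj h.1]
  · intro h
    exact absurd (Finset.mem_univ i) h

theorem H_sl {ι : Type} [Fintype ι] (Q : Ω × ι → ℝ) (f : Ω × ι → S) :
    H Q (fun w => (w.2, f w)) = ∑ i, H (fun ω => Q (ω, i)) (fun ω => f (ω, i)) := by
  unfold H
  rw [Finset.sum_neg_distrib, neg_inj, Fintype.sum_prod_type, Finset.sum_comm]
  refine Finset.sum_congr rfl fun i _ => Finset.sum_congr rfl fun ω _ => ?_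
  rw [law_sl]

/-- Conditional entropy given the second coordinate: sum over the slices. -/
theorem CH_sl {ι : Type} [Fintype ι] {Q : Ω × ι → ℝ} (hQ : ∀ w, 0 ≤ Q w) (X : Ω × ι → S)
    (Z : Ω × ι → T) :
    CH Q X (fun w => (w.2, Z w)) =
      ∑ i, CH (fun ω => Q (ω, i)) (fun ω => X (ω, i)) (fun ω => Z (ω, i)) := by
  have h1 : H Q (fun w => (X w, (w.2, Z w))) = H Q (fun w => (w.2, (X w, Z w))) := by
    refine H_congr hQ ?_ ?_ <;>
    · intro ω ω' _ _ h
      simp only [Prod.mk.injEq] at h ⊢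
      tauto
  unfold CH
  rw [h1, H_sl, H_sl, Finset.sum_sub_distrib]

/-- The law with an independent uniform second coordinate. -/
noncomputable def un (N : ℕ) (p : Ω → ℝ) (e : Ω × Fin N) : ℝ := p e.1 / N

omit [Fintype Ω] in
theorem un_sum (hN : 0 < N) (p : Ω → ℝ) (ω : Ω) : ∑ e : Fin N, un N p (ω, e) = p ω := by
  have h0 : (0 : ℝ) < N := by exact_mod_cast hN
  change ∑ _e : Fin N, p ω / N = p ω
  rw [Finset.sum_const, Finset.card_univ, Fintype.card_fin, nsmul_eq_mul]
  field_simp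

theorem un_isLaw (hN : 0 < N) {p : Ω → ℝ} (hp : IsLaw p) : IsLaw (un N p) := by
  refine ⟨fun e => div_nonneg (hp.nonneg _) (Nat.cast_nonneg _), ?_⟩
  rw [Fintype.sum_prod_type]
  simp only [un_sum hN]
  exact hp.sum_one

theorem un_psh (hN : 0 < N) (p : Ω → ℝ) : Pool.KM7.Psh (un N p) Prod.fst p := by
  classical
  intro ω
  unfold law
  rw [Fintype.sum_prod_type, Finset.sum_eq_single ω]
  · simp only [if_true]
    exact un_sum hN p ω
  · intro ω' _ h'
    refine Finset.sum_eq_zero fun i _ => ?_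
    rw [if_neg h']
  · intro h'
    exact absurd (Finset.mem_univ ω) h'

omit [Fintype Ω] in
theorem un_pos {p : Ω → ℝ} {e : Ω × Fin N} (h : 0 < un N p e) : 0 < p e.1 := by
  unfold un at h
  by_contra hc
  push Not at hc
  have := div_nonpos_of_nonpos_of_nonneg hc (Nat.cast_nonneg (α := ℝ) N)
  linarith

omit [Fintype Ω] in
theorem un_eq (p : Ω → ℝ) (i : Fin N) : (fun ω => un N p (ω, i)) = fun ω => (N : ℝ)⁻¹ * p ω := by
  funext ω
  unfold un
  rw [div_eq_inv_mul]

/-- Conditional entropy given the uniform variable: the mean of the slices. -/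
theorem CH_un (hN : 0 < N) {p : Ω → ℝ} (hp : IsLaw p) (X : Ω × Fin N → S) (Z : Ω × Fin N → T) :
    CH (un N p) X (fun w => (w.2, Z w)) =
      (∑ i : Fin N, CH p (fun ω => X (ω, i)) (fun ω => Z (ω, i))) / N := by
  have h0 : (0 : ℝ) < N := by exact_mod_cast hN
  rw [CH_sl (un_isLaw hN hp).nonneg X Z, Finset.sum_div]
  refine Finset.sum_congr rfl fun i _ => ?_
  rw [un_eq, CH_smul (by positivity) hp.nonneg, div_eq_inv_mul]

/-- The uniform variable is independent of the other variables. -/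
theorem CH_un_snd (hN : 0 < N) {p : Ω → ℝ} (hp : IsLaw p) (Z : Ω → T) :
    CH (un N p) Prod.snd (fun w => Z w.1) = Real.log N := by
  have h0 : (0 : ℝ) < N := by exact_mod_cast hN
  have h1 : H (un N p) (fun w => (w.2, Z w.1)) = H p Z + Real.log N := by
    rw [H_sl]
    have h2 : ∀ i : Fin N, H (fun ω => un N p (ω, i)) (fun ω => Z ω) =
        (N : ℝ)⁻¹ * (H p Z + Real.log N) := by
      intro i
      rw [un_eq, H_smul (by positivity) hp.nonneg, hp.sum_one, Real.log_inv]
      ring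
    simp only [h2]
    rw [Finset.sum_const, Finset.card_univ, Fintype.card_fin, nsmul_eq_mul]
    field_simp
  have h3 : H (un N p) (fun w => Z w.1) = H p Z := H_eq_of_marginal Prod.fst (un_psh hN p) Z
  unfold CH
  rw [h1, h3]
  ring

theorem Ex_un (p : Ω → ℝ) (f : Ω × Fin N → ℝ) :
    Ex (un N p) f = (∑ i : Fin N, Ex p (fun ω => f (ω, i))) / N := by
  unfold Ex
  rw [Fintype.sum_prod_type, Finset.sum_comm, Finset.sum_div]
  refine Finset.sum_congr rfl fun i _ => ?_
  rw [Finset.sum_div]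
  refine Finset.sum_congr rfl fun ω _ => ?_
  unfold un
  ring

end Pool.FTM
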