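import Pool.Agent.H15.KM7.Ops
import Pool.Agent.H85.TG.Defs2
import Pool.Agent.H10.FTM.Pure

/-!
# Filling the times

The family with filled times `fill F` has the lines and the side information of `F`, and a time
which is uniform and independent of them. The information of the exact point on the line, given the
side information, is for `fill F` at most the cost of every label of `F`, whatever the times of `F`
are. So if a theorem gives a label for families with live times, then the filled family has at most
the same information, and the theorem for uniform times can be applied to it: the class of the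
labels of the theorem for live times is as good as the one of the theorem for uniform times.
-/

set_option autoImplicit false

namespace Pool.FTM

open Finset Real
open Pool.Agent.H49.Ent Pool.Agent.H32.Dense Pool.STK Pool.KA Pool.KM7

variable {m J : ℕ}

theorem two_pos (J : ℕ) : 0 < 2 ^ J := by positivity

/-- The family with filled times. -/
noncomputable def fill (F : Fam m J) : Fam m J where
  Ω := F.Ω × Fin (2 ^ J)
  ζ := F.ζ
  fin := inferInstance
  p := un (2 ^ J) F.p
  u := fun e => F.u e.1
  d := fun e => F.d e.1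
  T := fun e => e.2
  Z := fun e => F.Z e.1
  isLaw := un_isLaw (two_pos J) F.isLaw
  dir := fun e => F.dir e.1
  tim := fun e => e.2.isLt

theorem fill_psh (F : Fam m J) : Psh (fill F).p (fun e => e.1) F.p := un_psh (two_pos J) F.p

theorem log_two_pow (J : ℕ) : Real.log ((2 ^ J : ℕ) : ℝ) = J * Real.log 2 := by
  push_cast
  rw [Real.log_pow]

/-- The filled times are uniform and independent of the line, of the side information and of the
old time. -/
theorem fill_T (F : Fam m J) {κ : Type*} (Y : F.Ω → κ) :
    CH (fill F).p (fill F).T (fun e => Y e.1) = J * Real.log 2 := by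
  have h := CH_un_snd (N := 2 ^ J) (two_pos J) F.isLaw Y
  rw [log_two_pow] at h
  rw [← h]
  refine CH_congr (fill F).isLaw.nonneg ?_ ?_ (fun _ _ _ _ h => h) (fun _ _ _ _ h => h)
  · intro e e' _ _ h
    exact Fin.ext (congrArg Prod.fst h)
  · intro e e' _ _ h
    exact congrArg (fun x : Fin (2 ^ J) × κ => (x.1 : ℕ)) h

theorem fill_Tm (F : Fam m J) : (fill F).Tm 0 := by
  unfold Fam.Tm
  rw [sub_zero]
  exact (fill_T F (fun ω => (F.l ω, F.Z ω))).ge

/-- The information of the point of the filled family. -/
theorem fill_Vf (F : Fam m J) : (fill F).Vf = CH (fill F).p ((fill F).X J) (fill F).W := by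
  have h1 := CH_chain (fill F).isLaw.nonneg ((fill F).X J) (fill F).T (fill F).Z
  have h2 := fill_T F F.Z
  have h3 := fill_T F (fun ω => (F.l ω, F.Z ω))
  unfold Fam.Vf
  have h4 : CH (fill F).p (fill F).T (fun ω => ((fill F).l ω, (fill F).Z ω)) = J * Real.log 2 := h3
  have h5 : CH (fill F).p (fill F).T (fill F).Z = J * Real.log 2 := h2
  rw [h1, h4, h5]
  unfold Fam.W
  ring

/-- **(FILL)** The information of the point of the filled family is at most the cost of every label:
the entropy of the label, plus the mean logarithm of the number of the points in the section of the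
set of the lines with this label. -/
theorem fill_le (F : Fam m J) {β : Type} (B : F.Ω → β) (S : β → ℕ → Finset (Fin m → ℤ))
    (hS : ∀ ω, 0 < F.p ω → ∀ t : ℕ, t < 2 ^ J →
      fl J (fun i => F.u ω i + (t : ℝ) / 2 ^ J * F.d ω i) ∈ S (B ω) t) :
    (fill F).Vf ≤ CH F.p B F.Z +
      Ex (fill F).p (fun e => Real.log ((S (B e.1) ((fill F).T e)).card)) := by
  have h0 := (fill F).isLaw.nonneg
  rw [fill_Vf]
  have h1 := CH_chain h0 ((fill F).X J) (fun e : (fill F).Ω => B e.1) (fill F).W
  have h2 : CH (fill F).p ((fill F).X J) (fill F).W ≤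
      CH (fill F).p (fun e => ((fill F).X J e, B e.1)) (fill F).W :=
    CH_mono_left h0 (fun e e' _ _ h => (Prod.ext_iff.mp (Prod.ext_iff.mp h).1).1)
  have h3 : CH (fill F).p (fun e : (fill F).Ω => B e.1) (fill F).W ≤ CH F.p B F.Z := by
    rw [← (fill_psh F).CH_eq B F.Z]
    exact CH_mono_cond h0 (fun e e' _ _ h => (Prod.ext_iff.mp h).2)
  have h4 := CH_le_card h0 (fill F).isLaw.sum_one ((fill F).X J)
    (fun e : (fill F).Ω => (B e.1, (fill F).W e)) (fun w => S w.1 w.2.1)
    (fun e he => hS e.1 (un_pos he) ((fill F).T e) ((fill F).tim e))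
  have h5 : Ex (fill F).p (fun e => Real.log
      ((S ((fun e : (fill F).Ω => (B e.1, (fill F).W e)) e).1
        ((fun e : (fill F).Ω => (B e.1, (fill F).W e)) e).2.1).card : ℝ)) =
      Ex (fill F).p (fun e => Real.log ((S (B e.1) ((fill F).T e)).card)) := rfl
  linarith

/-- A label of the filled family gives a label of the family of the same cost, at a fixed value of
the filled time. -/
theorem fill_choose (F : Fam m J) {β : Type} (B : (fill F).Ω → β) (c : β → ℝ) :
    ∃ i : Fin (2 ^ J), CH F.p (fun ω => B (ω, i)) F.Z + Ex F.p (fun ω => c (B (ω, i))) ≤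
      CH (fill F).p B (fill F).Z + Ex (fill F).p (fun e => c (B e)) := by
  by_contra hcon
  push Not at hcon
  have h0 := (fill F).isLaw.nonneg
  set M := CH (fill F).p B (fill F).Z + Ex (fill F).p (fun e => c (B e)) with hM
  have h1 : CH (fill F).p B (fun e : (fill F).Ω => (e.2, F.Z e.1)) ≤ CH (fill F).p B (fill F).Z :=
    CH_mono_cond h0 (fun e e' _ _ h => (Prod.ext_iff.mp h).2)
  have h2 := CH_un (N := 2 ^ J) (two_pos J) F.isLaw B (fun e => F.Z e.1)
  have h3 := Ex_un (N := 2 ^ J) F.p (fun e => c (B e))
  have hN : (0 : ℝ) < ((2 ^ J : ℕ) : ℝ) := by positivity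
  have h4 : M ≥ (∑ i : Fin (2 ^ J), (CH F.p (fun ω => B (ω, i)) F.Z +
      Ex F.p (fun ω => c (B (ω, i))))) / ((2 ^ J : ℕ) : ℝ) := by
    rw [Finset.sum_add_distrib, add_div]
    have h5 : CH (un (2 ^ J) F.p) B (fun w : F.Ω × Fin (2 ^ J) => (w.2, F.Z w.1)) ≤
      CH (fill F).p B (fill F).Z := h1
    have h6 : Ex (fill F).p (fun e => c (B e)) = Ex (un (2 ^ J) F.p) (fun e => c (B e)) := rfl
    rw [hM, h6, h3]
    linarith
  have h5 : (∑ i : Fin (2 ^ J), M) < ∑ i : Fin (2 ^ J), (CH F.p (fun ω => B (ω, i)) F.Z +
      Ex F.p (fun ω => c (B (ω, i)))) :=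
    Finset.sum_lt_sum_of_nonempty ⟨⟨0, two_pos J⟩, Finset.mem_univ _⟩ (fun i _ => hcon i)
  rw [Finset.sum_const, Finset.card_univ, Fintype.card_fin, nsmul_eq_mul] at h5
  rw [ge_iff_le, div_le_iff₀ hN] at h4
  linarith

end Pool.FTM
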