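import Pool.Agent.H10.FTM.Cls
import Pool.Agent.H37.S3.CHN

/-!
# Optimal noisy labels: fullness and mixing without fans

A noisy label of a family is a label on a copy. Suppose that all families with uniform times, with
any side information, have labels of the class with small cost (`Box`). If a noisy label minimises
(up to `δ`) its cost plus `om` times its price, then the points are full given the label, and the
chain of lines and points which starts from a point of the label mixes. No hypothesis on the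
directions of the lines is made.
-/

set_option autoImplicit false

namespace Pool.FTM

open Finset Real
open Pool.Agent.H49.Ent Pool.Agent.H32.Dense Pool.STK Pool.KA Pool.KM7 Pool.KS3

variable {m J : ℕ}

/-- The label theorem at the resolution `J`, for the families with lines in `D` and uniform times
and any side information, with the error `ε`, and the bound of the sections by the price. -/
structure Box (C : LC m) (J : ℕ) (D : (Fin m → ℝ) × (Fin m → ℝ) → Prop) (ε : ℝ) : Prop where
  lab : ∀ G : Fam m J, (∀ ω, 0 < G.p ω → D (G.l ω)) → G.Tm 0 → C.Has G (G.Vf + ε)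
  vol : ∃ S : C.V J → ℕ → Finset (Fin m → ℤ), ∀ v : C.V J, ∀ t : ℕ, t < 2 ^ J →
    (∀ l : (Fin m → ℝ) × (Fin m → ℝ), C.LL J v l →
      fl J (fun i => l.1 i + (t : ℝ) / 2 ^ J * l.2 i) ∈ S v t) ∧
    Real.log ((S v t).card) ≤ C.c J v + ε

/-- A noisy label: a label on a copy of the family. -/
structure Nlb (C : LC m) (F : Fam m J) : Type 1 where
  /-- the copy -/
  E : Type
  fin : Fintype E
  /-- the law on the copy -/
  p : E → ℝ
  /-- the projection -/
  pr : E → F.Ω
  /-- the label -/
  B : E → C.V J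
  isLaw : IsLaw p
  psh : Psh p pr F.p
  mem : ∀ e, 0 < p e → C.LL J (B e) (F.l (pr e))

attribute [instance] Nlb.fin

variable {C : LC m} {F : Fam m J}

/-- The label with the side information. -/
def Nlb.z (y : Nlb C F) (e : y.E) : C.V J × F.ζ := (y.B e, F.Z (y.pr e))

/-- The entropy of the line given the label and the side information. -/
noncomputable def Nlb.ent (y : Nlb C F) : ℝ := CH y.p (fun e => F.l (y.pr e)) y.z

/-- The mean price. -/
noncomputable def Nlb.vol (y : Nlb C F) : ℝ := Ex y.p (fun e => C.c J (y.B e))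

/-- The cost, minus the entropy of the line given the side information, plus `om` times the
price. -/
noncomputable def Nlb.val (om : ℝ) (y : Nlb C F) : ℝ := (1 + om) * y.vol - y.ent

/-- The family with the label as side information. -/
def Nlb.fam (y : Nlb C F) : Fam m J := (F.ext y.p y.isLaw y.pr).cnd y.B

/-- The line and the label, on the incidences. -/
def Nlb.lam (y : Nlb C F) (e : y.E × Fin (2 ^ J)) :
    ((Fin m → ℝ) × (Fin m → ℝ)) × (C.V J × F.ζ) := (F.l (y.pr e.1), y.z e.1)

/-- The point and the label, on the incidences. -/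
noncomputable def Nlb.x (y : Nlb C F) (e : y.E × Fin (2 ^ J)) :
    ((Fin m → ℤ) × ℕ) × (C.V J × F.ζ) := (((fill y.fam).X J e, (e.2 : ℕ)), y.z e.1)

/-- The points are not more than the section. -/
theorem Nlb.le_vol {D : (Fin m → ℝ) × (Fin m → ℝ) → Prop} {ε : ℝ} (hb : Box C J D ε)
    (y : Nlb C F) : (fill y.fam).Vf ≤ y.vol + ε := by
  obtain ⟨S, hS⟩ := hb.vol
  have h1 := fill_le y.fam y.B S (fun e he t ht => (hS (y.B e) t ht).1 _ (y.mem e he))
  have h2 : CH y.fam.p y.B y.fam.Z = 0 := by
    unfold CH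
    rw [sub_eq_zero]
    refine H_congr y.isLaw.nonneg ?_ ?_
    · intro e e' _ _ h
      have h' : y.B e = y.B e' := congrArg Prod.fst h
      exact Prod.ext h' h
    · intro e e' _ _ h
      exact (Prod.ext_iff.mp h).2
  have h3 : Ex (fill y.fam).p (fun e => Real.log ((S (y.B e.1) ((fill y.fam).T e)).card)) ≤
      Ex (fill y.fam).p (fun e => C.c J (y.B e.1) + ε) :=
    Ex_mono (fill y.fam).isLaw.nonneg fun e _ => (hS (y.B e.1) _ e.2.isLt).2
  have h4 : Ex (fill y.fam).p (fun e => C.c J (y.B e.1) + ε) = y.vol + ε := by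
    rw [Ex_add, Ex_const (fill y.fam).isLaw.sum_one]
    congr 1
    exact (un_psh (two_pos J) y.p).Ex_eq (fun e => C.c J (y.B e))
  linarith

/-- Mutual information is symmetric, also given a function of both variables. -/
theorem CH_mi {Ω S T U : Type} [Fintype Ω] {p : Ω → ℝ} (hp : ∀ ω, 0 ≤ p ω) {A : Ω → S} {B : Ω → T}
    {Z : Ω → U} (hA : Det p A Z) (hB : Det p B Z) :
    CH p A Z - CH p A B = CH p B Z - CH p B A := by
  have h1 := CH_chain hp A B Z
  have h2 := CH_chain hp B A Z
  have h3 : CH p (fun ω => (A ω, B ω)) Z = CH p (fun ω => (B ω, A ω)) Z := by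
    refine CH_congr hp ?_ ?_ (fun _ _ _ _ h => h) (fun _ _ _ _ h => h) <;>
    · intro ω ω' _ _ h
      simp only [Prod.mk.injEq] at h ⊢
      tauto
  have h4 : CH p A (fun ω => (B ω, Z ω)) = CH p A B := by
    refine CH_congr hp (fun _ _ _ _ h => (Prod.ext_iff.mp h).1)
      (fun _ _ _ _ h => (Prod.ext_iff.mp h).1) ?_ ?_
    · intro ω ω' _ _ e
      exact (Prod.ext_iff.mp e).1
    · intro ω ω' h h' e
      exact Prod.ext e (hB ω ω' h h' e)
  have h5 : CH p B (fun ω => (A ω, Z ω)) = CH p B A := by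
    refine CH_congr hp (fun _ _ _ _ h => (Prod.ext_iff.mp h).1)
      (fun _ _ _ _ h => (Prod.ext_iff.mp h).1) ?_ ?_
    · intro ω ω' _ _ e
      exact (Prod.ext_iff.mp e).1
    · intro ω ω' h h' e
      exact Prod.ext e (hA ω ω' h h' e)
  linarith

/-- Pigeonhole along the chain. -/
theorem pig {N : ℕ} (a b : ℕ → ℝ) {H : ℝ} (hN : 0 < N) (h0 : 0 ≤ a 0) (hb : ∀ i < N, a i ≤ b i)
    (hH : a N ≤ H) : ∃ j < N, a (j + 1) - b j ≤ H / N := by
  by_contra hcon
  push Not at hcon
  have hN' : (0 : ℝ) < N := by exact_mod_cast hN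
  have h1 : ∀ i ≤ N, 0 < i → i * (H / N) < a i := by
    intro i
    induction i with
    | zero => exact fun _ h => absurd h (lt_irrefl _)
    | succ i ih =>
      intro hi _
      have h2 := hcon i (by omega)
      have h3 := hb i (by omega)
      rcases Nat.eq_zero_or_pos i with h4 | h4
      · subst h4
        push_cast
        linarith
      · have h5 := ih (by omega) h4
        push_cast
        linarith
  have h2 := h1 N le_rfl hN
  rw [mul_div_cancel₀ _ hN'.ne'] at h2
  linarith

section Chain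

variable (y : Nlb C F) {N : ℕ} {W : Type} [Fintype W] {q : W → ℝ}
  {o o' : ℕ → W → y.E × Fin (2 ^ J)}
  {l : ℕ → W → ((Fin m → ℝ) × (Fin m → ℝ)) × (C.V J × F.ζ)}
  {v : ℕ → W → ((Fin m → ℤ) × ℕ) × (C.V J × F.ζ)}

/-- The family of the line number `j` of the chain with the time of the next point; the side
information is the first point. -/
def chf (hq : IsLaw q) (e : W → y.E × Fin (2 ^ J))
    (z : W → ((Fin m → ℤ) × ℕ) × (C.V J × F.ζ)) : Fam m J where
  Ω := W
  ζ := ((Fin m → ℤ) × ℕ) × (C.V J × F.ζ)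
  fin := inferInstance
  p := q
  u := fun w => F.u (y.pr (e w).1)
  d := fun w => F.d (y.pr (e w).1)
  T := fun w => (e w).2
  Z := z
  isLaw := hq
  dir := fun w => F.dir (y.pr (e w).1)
  tim := fun w => (e w).2.isLt

variable {y}

theorem lab_cst (hc : IsChain (fill y.fam).p y.lam y.x N q o o' l v) {w : W} (hw : 0 < q w) :
    ∀ i ≤ N, (v i w).2 = (v 0 w).2 := by
  intro i
  induction i with
  | zero => exact fun _ => rfl
  | succ i ih =>
    intro hi
    have h1 := ih (by omega)
    have h2 := hc.start w hw i (by omega)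
    have h3 := hc.line w hw i (by omega)
    have h4 := hc.line' w hw i (by omega)
    have h5 := hc.stop w hw i (by omega)
    rw [← h1, ← h2, ← h5]
    have h6 : (y.lam (o' i w)).2 = (y.lam (o i w)).2 := by rw [h3, h4]
    exact h6

theorem lab_l (hc : IsChain (fill y.fam).p y.lam y.x N q o o' l v) {w : W} (hw : 0 < q w) {i : ℕ}
    (hi : i < N) : (l i w).2 = (v 0 w).2 := by
  rw [← lab_cst hc hw i hi.le, ← hc.line w hw i hi, ← hc.start w hw i hi]
  rfl

theorem lab_o' (hc : IsChain (fill y.fam).p y.lam y.x N q o o' l v) {w : W} (hw : 0 < q w) {i : ℕ}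
    (hi : i < N) : y.z (o' i w).1 = (v 0 w).2 := by
  rw [← lab_l hc hw hi, ← hc.line' w hw i hi]
  rfl

/-- The entropy of the line given the first point. -/
theorem ent_l (hc : IsChain (fill y.fam).p y.lam y.x N q o o' l v) {j : ℕ} (hj : j < N) :
    CH q (fun w => F.l (y.pr (o' j w).1)) (v 0) =
      y.ent - (CH q (v 0) (fun w => (v 0 w).2) - CH q (v 0) (l j)) := by
  have hq0 := hc.isLaw.nonneg
  have hM := hc.marg' j hj
  have e1 : CH q (fun w => F.l (y.pr (o' j w).1)) (v 0) = CH q (l j) (v 0) := by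
    refine CH_congr hq0 ?_ ?_ (fun _ _ _ _ h => h) (fun _ _ _ _ h => h)
    · intro w w' hw hw' h
      have h1 := (Prod.ext_iff.mp h).1
      have h2 := (Prod.ext_iff.mp h).2
      refine Prod.ext ?_ ?_
      · rw [← hc.line' w hw j hj, ← hc.line' w' hw' j hj]
        exact h1
      · rw [lab_l hc hw hj, lab_l hc hw' hj]
        exact congrArg Prod.snd h2
    · intro w w' hw hw' h
      have h1 := (Prod.ext_iff.mp h).1
      simp only at h1
      rw [← hc.line' w hw j hj, ← hc.line' w' hw' j hj] at h1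
      exact congrArg Prod.fst h1
  have e2 := CH_mi hq0 (A := l j) (B := v 0) (Z := fun w => (v 0 w).2)
    (fun w w' hw hw' h => by
      have h1 := congrArg Prod.snd h
      rw [lab_l hc hw hj, lab_l hc hw' hj] at h1
      exact h1) (fun w w' _ _ h => congrArg Prod.snd h)
  have e3 : CH q (l j) (fun w => (v 0 w).2) = y.ent := by
    have h1 : CH q (l j) (fun w => (v 0 w).2) =
        CH q (fun w => y.lam (o' j w)) (fun w => y.z (o' j w).1) := by
      refine CH_congr hq0 ?_ ?_ ?_ ?_
      · intro w w' hw hw' h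
        have h1 := (Prod.ext_iff.mp h).1
        simp only at h1 ⊢
        rw [hc.line' w hw j hj, hc.line' w' hw' j hj]
        exact h1
      · intro w w' hw hw' h
        have h1 := (Prod.ext_iff.mp h).1
        simp only at h1 ⊢
        rw [← hc.line' w hw j hj, ← hc.line' w' hw' j hj]
        exact h1
      · intro w w' hw hw' h
        simp only at h ⊢
        rw [lab_o' hc hw hj, lab_o' hc hw' hj]
        exact h
      · intro w w' hw hw' h
        simp only at h ⊢
        rw [lab_o' hc hw hj, lab_o' hc hw' hj] at h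
        exact h
    rw [h1]
    have h2 := hM.CH y.lam (fun e => y.z e.1)
    rw [h2]
    have h3 := (un_psh (two_pos J) y.p).CH_eq (fun e => (F.l (y.pr e), y.z e)) y.z
    have h4 : CH (fill y.fam).p y.lam (fun e => y.z e.1) =
        CH y.p (fun e => (F.l (y.pr e), y.z e)) y.z := h3
    rw [h4]
    unfold Nlb.ent
    refine CH_congr y.isLaw.nonneg ?_ ?_ (fun _ _ _ _ h => h) (fun _ _ _ _ h => h)
    · intro e e' _ _ h
      exact congrArg Prod.fst (Prod.ext_iff.mp h).1
    · intro e e' _ _ h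
      exact Prod.ext (Prod.ext_iff.mp h).1 (Prod.ext_iff.mp h).2
  linarith

/-- The entropy of a point given the first point. -/
theorem ent_v (hc : IsChain (fill y.fam).p y.lam y.x N q o o' l v) {j : ℕ} (hj : j < N) :
    CH q (v (j + 1)) (v 0) = (fill y.fam).Vf + J * Real.log 2 -
      (CH q (v 0) (fun w => (v 0 w).2) - CH q (v 0) (v (j + 1))) := by
  have hq0 := hc.isLaw.nonneg
  have hM := hc.marg' j hj
  have e2 := CH_mi hq0 (A := v (j + 1)) (B := v 0) (Z := fun w => (v 0 w).2)
    (fun w w' hw hw' h => by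
      have h1 := congrArg Prod.snd h
      rw [lab_cst hc hw _ hj, lab_cst hc hw' _ hj] at h1
      exact h1) (fun w w' _ _ h => congrArg Prod.snd h)
  have e3 : CH q (v (j + 1)) (fun w => (v 0 w).2) = (fill y.fam).Vf + J * Real.log 2 := by
    have h1 : CH q (v (j + 1)) (fun w => (v 0 w).2) =
        CH q (fun w => y.x (o' j w)) (fun w => y.z (o' j w).1) := by
      refine CH_congr hq0 ?_ ?_ ?_ ?_
      · intro w w' hw hw' h
        have h1 := (Prod.ext_iff.mp h).1
        simp only at h1 ⊢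
        rw [hc.stop w hw j hj, hc.stop w' hw' j hj]
        exact h1
      · intro w w' hw hw' h
        have h1 := (Prod.ext_iff.mp h).1
        simp only at h1 ⊢
        rw [← hc.stop w hw j hj, ← hc.stop w' hw' j hj]
        exact h1
      · intro w w' hw hw' h
        simp only at h ⊢
        rw [lab_o' hc hw hj, lab_o' hc hw' hj]
        exact h
      · intro w w' hw hw' h
        simp only at h ⊢
        rw [lab_o' hc hw hj, lab_o' hc hw' hj] at h
        exact h
    rw [h1]
    have h2 := hM.CH y.x (fun e => y.z e.1)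
    rw [h2]
    have h3 : CH (fill y.fam).p y.x (fun e => y.z e.1) =
        CH (fill y.fam).p (fun e => ((fill y.fam).X J e, (fill y.fam).T e)) (fill y.fam).Z := by
      refine CH_congr (fill y.fam).isLaw.nonneg ?_ ?_ (fun _ _ _ _ h => h) (fun _ _ _ _ h => h)
      · intro e e' _ _ h
        exact congrArg Prod.fst (Prod.ext_iff.mp h).1
      · intro e e' _ _ h
        exact Prod.ext (Prod.ext_iff.mp h).1 (Prod.ext_iff.mp h).2
    rw [h3]
    have h4 : CH (fill y.fam).p (fill y.fam).T (fun e => ((fill y.fam).l e, (fill y.fam).Z e)) =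
        J * Real.log 2 := fill_T y.fam (fun e => (y.fam.l e, y.fam.Z e))
    unfold Fam.Vf
    rw [h4]
    ring
  linarith

/-- The entropy of the first point given the label. -/
theorem ent_0 (hN : 0 < N) (hc : IsChain (fill y.fam).p y.lam y.x N q o o' l v) :
    CH q (v 0) (fun w => (v 0 w).2) = (fill y.fam).Vf + J * Real.log 2 := by
  have hq0 := hc.isLaw.nonneg
  have hM := hc.marg 0 hN
  have h1 : CH q (v 0) (fun w => (v 0 w).2) =
      CH q (fun w => y.x (o 0 w)) (fun w => y.z (o 0 w).1) := by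
    refine CH_congr hq0 ?_ ?_ ?_ ?_
    · intro w w' hw hw' h
      have h1 := (Prod.ext_iff.mp h).1
      simp only at h1 ⊢
      rw [hc.start w hw 0 hN, hc.start w' hw' 0 hN]
      exact h1
    · intro w w' hw hw' h
      have h1 := (Prod.ext_iff.mp h).1
      simp only at h1 ⊢
      rw [← hc.start w hw 0 hN, ← hc.start w' hw' 0 hN]
      exact h1
    · intro w w' hw hw' h
      simp only at h ⊢
      rw [← hc.start w hw 0 hN, ← hc.start w' hw' 0 hN] at h
      exact h
    · intro w w' hw hw' h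
      simp only at h ⊢
      rw [← hc.start w hw 0 hN, ← hc.start w' hw' 0 hN]
      exact h
  rw [h1]
  have h2 := hM.CH y.x (fun e => y.z e.1)
  rw [h2]
  have h3 : CH (fill y.fam).p y.x (fun e => y.z e.1) =
      CH (fill y.fam).p (fun e => ((fill y.fam).X J e, (fill y.fam).T e)) (fill y.fam).Z := by
    refine CH_congr (fill y.fam).isLaw.nonneg ?_ ?_ (fun _ _ _ _ h => h) (fun _ _ _ _ h => h)
    · intro e e' _ _ h
      exact congrArg Prod.fst (Prod.ext_iff.mp h).1
    · intro e e' _ _ h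
      exact Prod.ext (Prod.ext_iff.mp h).1 (Prod.ext_iff.mp h).2
  rw [h3]
  have h4 : CH (fill y.fam).p (fill y.fam).T (fun e => ((fill y.fam).l e, (fill y.fam).Z e)) =
      J * Real.log 2 := fill_T y.fam (fun e => (y.fam.l e, y.fam.Z e))
  unfold Fam.Vf
  rw [h4]
  ring

theorem psh_of_marg {Ω E : Type} [Fintype Ω] [Fintype E] {p' : E → ℝ} {p : Ω → ℝ} {pr : E → Ω}
    (h : Marg p' p pr) : Psh p' pr p := by
  intro ω
  unfold law
  rw [← h ω]

/-- The times of the family of the line number `j` are uniform. -/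
theorem chf_T (hc : IsChain (fill y.fam).p y.lam y.x N q o o' l v) {j : ℕ} (hj : j < N) :
    CH q (chf y hc.isLaw (o' j) (v 0)).T
      (fun w => ((chf y hc.isLaw (o' j) (v 0)).l w, v 0 w)) = J * Real.log 2 := by
  have hq0 := hc.isLaw.nonneg
  have hM := hc.marg' j hj
  have h1 : CI q (v 0) (fun w => ((o' j w).2 : ℕ)) (l j) := by
    refine CI_of_le hq0 ?_
    rw [← hc.ci2 j hj]
    refine CH_mono_cond hq0 ?_
    intro w w' hw hw' h
    simp only [Prod.mk.injEq] at h ⊢
    refine ⟨?_, h.1⟩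
    have h2 : (v (j + 1) w).1.2 = (v (j + 1) w').1.2 := by rw [h.2.1]
    rw [← hc.stop w hw j hj, ← hc.stop w' hw' j hj] at h2
    exact h2
  have h2 := h1.symm hq0
  unfold CI at h2
  have h3 : CH q (chf y hc.isLaw (o' j) (v 0)).T
      (fun w => ((chf y hc.isLaw (o' j) (v 0)).l w, v 0 w)) =
      CH q (fun w => ((o' j w).2 : ℕ)) (fun w => (v 0 w, l j w)) := by
    refine CH_congr hq0 (fun _ _ _ _ h => (Prod.ext_iff.mp h).1)
      (fun _ _ _ _ h => (Prod.ext_iff.mp h).1) ?_ ?_
    · intro w w' hw hw' h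
      have h5 := (Prod.ext_iff.mp h).1
      have h6 := (Prod.ext_iff.mp h).2
      refine Prod.ext h6 (Prod.ext ?_ ?_)
      · simp only
        rw [← hc.line' w hw j hj, ← hc.line' w' hw' j hj]
        exact h5
      · simp only
        rw [lab_l hc hw hj, lab_l hc hw' hj]
        exact congrArg Prod.snd h6
    · intro w w' hw hw' h
      have h5 := (Prod.ext_iff.mp h).1
      have h6 := (Prod.ext_iff.mp h).2
      refine Prod.ext ?_ h5
      simp only at h6
      rw [← hc.line' w hw j hj, ← hc.line' w' hw' j hj] at h6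
      have h7 := congrArg Prod.fst h6
      exact h7
  rw [h3, h2]
  have h4 : CH q (fun w => ((o' j w).2 : ℕ)) (l j) =
      CH q (fun w => ((o' j w).2 : ℕ)) (fun w => y.lam (o' j w)) := by
    refine CH_congr hq0 (fun _ _ _ _ h => (Prod.ext_iff.mp h).1)
      (fun _ _ _ _ h => (Prod.ext_iff.mp h).1) ?_ ?_
    · intro w w' hw hw' h
      simp only at h ⊢
      rw [hc.line' w hw j hj, hc.line' w' hw' j hj]
      exact h
    · intro w w' hw hw' h
      simp only at h ⊢
      rw [hc.line' w hw j hj, hc.line' w' hw' j hj] at h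
      exact h
  rw [h4, hM.CH (fun e => (e.2 : ℕ)) y.lam]
  exact fill_T y.fam (fun e => (F.l (y.pr e), y.z e))

/-- **One step.** -/
theorem mix_one {D : (Fin m → ℝ) × (Fin m → ℝ) → Prop} {ε om δ : ℝ} (hb : Box C J D ε)
    (hD : ∀ ω, 0 < F.p ω → D (F.l ω)) (hom : 0 ≤ om)
    (hopt : ∀ y' : Nlb C F, y.val om ≤ y'.val om + δ)
    (hc : IsChain (fill y.fam).p y.lam y.x N q o o' l v) {j : ℕ} (hj : j < N) :
    (1 + om) * (y.vol - (fill y.fam).Vf) +
      om * (CH q (v 0) (fun w => (v 0 w).2) - CH q (v 0) (v (j + 1))) ≤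
      (1 + om) * ε + (CH q (v 0) (v (j + 1)) - CH q (v 0) (l j)) + δ := by
  have hq0 := hc.isLaw.nonneg
  have hM := hc.marg' j hj
  have hT := chf_T hc hj
  have hpos : ∀ w, 0 < q w → 0 < y.p (o' j w).1 := fun w hw => un_pos (hM.pos hq0 hw)
  obtain ⟨E2, hE2, p2, pr2, B2, h1, h2, h3, h4⟩ := hb.lab (chf y hc.isLaw (o' j) (v 0))
    (fun w hw => hD _ (y.psh.pos y.isLaw.nonneg (hpos w hw)))
    (by unfold Fam.Tm; rw [sub_zero]; exact hT.ge)
  have h20 := h1.nonneg
  set y2 : Nlb C F :=
    { E := E2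
      fin := hE2
      p := p2
      pr := fun e => y.pr (o' j (pr2 e)).1
      B := B2
      isLaw := h1
      psh := y.psh.comp ((fill_psh y.fam).comp ((psh_of_marg hM).comp h2))
      mem := h3 } with hy2
  have h5 := hopt y2
  have h6 : (chf y hc.isLaw (o' j) (v 0)).Vf ≤ CH q (v (j + 1)) (v 0) - J * Real.log 2 := by
    unfold Fam.Vf
    have h7 : CH (chf y hc.isLaw (o' j) (v 0)).p
        (fun w => ((chf y hc.isLaw (o' j) (v 0)).X J w,
          (chf y hc.isLaw (o' j) (v 0)).T w)) (chf y hc.isLaw (o' j) (v 0)).Z ≤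
        CH q (v (j + 1)) (v 0) := by
      refine CH_mono_left hq0 ?_
      intro w w' hw hw' h
      have h8 := (Prod.ext_iff.mp h).1
      simp only at h8
      rw [← hc.stop w hw j hj, ← hc.stop w' hw' j hj] at h8
      exact congrArg Prod.fst h8
    have h8 : CH (chf y hc.isLaw (o' j) (v 0)).p (chf y hc.isLaw (o' j) (v 0)).T
        (fun ω => ((chf y hc.isLaw (o' j) (v 0)).l ω,
          (chf y hc.isLaw (o' j) (v 0)).Z ω)) = J * Real.log 2 := hT
    linarith
  have h7 := ent_v hc hj
  have h8 := ent_l hc hj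
  have h9 : y2.ent ≥ CH q (fun w => F.l (y.pr (o' j w).1)) (v 0) -
      CH p2 B2 (fun e => v 0 (pr2 e)) := by
    have k1 : y2.ent ≥ CH p2 (fun e => F.l (y.pr (o' j (pr2 e)).1))
        (fun e => (B2 e, v 0 (pr2 e))) := by
      refine CH_mono_cond h20 ?_
      intro e e' he he' h
      have h10 := (Prod.ext_iff.mp h).1
      have h11 := (Prod.ext_iff.mp h).2
      refine Prod.ext h10 ?_
      have h12 := congrArg Prod.snd h11
      simp only at h12
      rw [← lab_o' hc (h2.pos h20 he) hj, ← lab_o' hc (h2.pos h20 he') hj] at h12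
      have h13 := congrArg Prod.snd h12
      exact h13
    have k2 := CH_chain h20 B2 (fun e => F.l (y.pr (o' j (pr2 e)).1)) (fun e => v 0 (pr2 e))
    have k3 := CH_chain h20 (fun e => F.l (y.pr (o' j (pr2 e)).1)) B2 (fun e => v 0 (pr2 e))
    have k4 : CH p2 (fun e => F.l (y.pr (o' j (pr2 e)).1)) (fun e => v 0 (pr2 e)) =
        CH q (fun w => F.l (y.pr (o' j w).1)) (v 0) :=
      h2.CH_eq (fun w => F.l (y.pr (o' j w).1)) (v 0)
    have k5 : CH p2 (fun e => F.l (y.pr (o' j (pr2 e)).1)) (fun e => v 0 (pr2 e)) ≤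
        CH p2 (fun e => (F.l (y.pr (o' j (pr2 e)).1), B2 e)) (fun e => v 0 (pr2 e)) :=
      CH_mono_left h20 (fun e e' _ _ h => by
        have h10 := (Prod.ext_iff.mp h).1
        exact congrArg Prod.fst h10)
    linarith
  have h10 : CH p2 B2 (fun e => v 0 (pr2 e)) + y2.vol ≤
      (chf y hc.isLaw (o' j) (v 0)).Vf + ε := h4
  have h11 := CH_nonneg h20 B2 (fun e => v 0 (pr2 e))
  unfold Nlb.val at h5
  have h12 : om * y2.vol ≤ om * ((chf y hc.isLaw (o' j) (v 0)).Vf + ε) :=
    mul_le_mul_of_nonneg_left (by linarith) hom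
  have h13 : om * (chf y hc.isLaw (o' j) (v 0)).Vf ≤
      om * (CH q (v (j + 1)) (v 0) - J * Real.log 2) := mul_le_mul_of_nonneg_left h6 hom
  nlinarith

/-- **(FULL + MIX)** An optimal noisy label is full, and the chain mixes. -/
theorem mix {D : (Fin m → ℝ) × (Fin m → ℝ) → Prop} {ε om δ : ℝ} (hb : Box C J D ε)
    (hD : ∀ ω, 0 < F.p ω → D (F.l ω)) (hom : 0 ≤ om)
    (hopt : ∀ y' : Nlb C F, y.val om ≤ y'.val om + δ) (hN : 0 < N)
    (hc : IsChain (fill y.fam).p y.lam y.x N q o o' l v) :
    (1 + om) * (y.vol - (fill y.fam).Vf) +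
      om * (CH q (v 0) (fun w => (v 0 w).2) - CH q (v 0) (v N)) ≤
      (1 + om) * ε + ((fill y.fam).Vf + J * Real.log 2) / N + δ := by
  have hq0 := hc.isLaw.nonneg
  have hab : ∀ i < N, CH q (v 0) (v i) ≤ CH q (v 0) (l i) := by
    intro i hi
    rw [← hc.ci1 i hi]
    exact CH_mono_cond hq0 fun _ _ _ _ h => congrArg Prod.snd h
  have hba : ∀ i < N, CH q (v 0) (l i) ≤ CH q (v 0) (v (i + 1)) := by
    intro i hi
    rw [← hc.ci2 i hi]
    refine CH_mono_cond hq0 fun _ _ _ _ h => ?_
    exact congrArg Prod.fst (congrArg Prod.snd h)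
  have hmono : ∀ k, ∀ i, i + k ≤ N → CH q (v 0) (v i) ≤ CH q (v 0) (v (i + k)) := by
    intro k
    induction k with
    | zero => exact fun _ _ => le_rfl
    | succ k ih =>
      intro i hi
      exact (ih i (by omega)).trans ((hab (i + k) (by omega)).trans (hba (i + k) (by omega)))
  have hlab : CH q (v 0) (v N) ≤ CH q (v 0) (fun w => (v 0 w).2) :=
    CH_mono_cond hq0 fun w w' hw hw' h => by
      rw [← lab_cst hc hw N le_rfl, ← lab_cst hc hw' N le_rfl, h]
  rw [ent_0 hN hc] at hlab
  obtain ⟨j, hj, hj'⟩ := pig (fun i => CH q (v 0) (v i)) (fun i => CH q (v 0) (l i)) hN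
    (CH_nonneg hq0 _ _) hab hlab
  have h1 := mix_one hb hD hom hopt hc hj
  have h2 := hmono (N - (j + 1)) (j + 1) (by omega)
  rw [show j + 1 + (N - (j + 1)) = N by omega] at h2
  have h3 : om * CH q (v 0) (v (j + 1)) ≤ om * CH q (v 0) (v N) :=
    mul_le_mul_of_nonneg_left h2 hom
  linarith

end Chain

/-- The value is bounded from below. -/
theorem Nlb.val_ge {D : (Fin m → ℝ) × (Fin m → ℝ) → Prop} {ε om : ℝ} (hb : Box C J D ε)
    (hom : 0 ≤ om) (y : Nlb C F) : -((1 + om) * ε) - CH F.p F.l F.Z ≤ y.val om := by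
  have h1 := y.le_vol hb
  have h2 : 0 ≤ (fill y.fam).Vf := by
    rw [fill_Vf]
    exact CH_nonneg (fill y.fam).isLaw.nonneg _ _
  have h3 : y.ent ≤ CH F.p F.l F.Z := by
    rw [← y.psh.CH_eq F.l F.Z]
    exact CH_mono_cond y.isLaw.nonneg fun _ _ _ _ h => congrArg Prod.snd h
  unfold Nlb.val
  have h4 : (1 + om) * (-ε) ≤ (1 + om) * y.vol :=
    mul_le_mul_of_nonneg_left (by linarith) (by linarith)
  linarith

/-- The information of the label about the line, given the side information, is at most the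
entropy of the label. -/
theorem ent_ge (y : Nlb C F) : CH F.p F.l F.Z - CH y.p y.B (fun e => F.Z (y.pr e)) ≤ y.ent := by
  have h0 := y.isLaw.nonneg
  have k2 := CH_chain h0 y.B (fun e => F.l (y.pr e)) (fun e => F.Z (y.pr e))
  have k3 := CH_chain h0 (fun e => F.l (y.pr e)) y.B (fun e => F.Z (y.pr e))
  have k4 := y.psh.CH_eq F.l F.Z
  have k5 : CH y.p (fun e => F.l (y.pr e)) (fun e => F.Z (y.pr e)) ≤
      CH y.p (fun e => (F.l (y.pr e), y.B e)) (fun e => F.Z (y.pr e)) :=
    CH_mono_left h0 (fun e e' _ _ h => congrArg Prod.fst (Prod.ext_iff.mp h).1)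
  have k6 : y.ent = CH y.p (fun e => F.l (y.pr e)) (fun e => (y.B e, F.Z (y.pr e))) := rfl
  linarith

/-- **Existence of optimal noisy labels.** -/
theorem opt {D : (Fin m → ℝ) × (Fin m → ℝ) → Prop} {ε om δ : ℝ} (hb : Box C J D ε)
    (hD : ∀ ω, 0 < F.p ω → D (F.l ω)) (hom : 0 ≤ om) (hδ : 0 < δ) :
    ∃ y : Nlb C F, (∀ y' : Nlb C F, y.val om ≤ y'.val om + δ) ∧
      y.val om ≤ (1 + om) * ((fill F).Vf + ε) - CH F.p F.l F.Z := by
  have hD' : ∀ e, 0 < (fill F).p e → D ((fill F).l e) := fun e he => hD e.1 (un_pos he)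
  obtain ⟨E, hE, p', pr, B, h1, h2, h3, h4⟩ := hb.lab (fill F) hD' (fill_Tm F)
  set y0 : Nlb C F :=
    { E := E
      fin := hE
      p := p'
      pr := fun e => (pr e).1
      B := B
      isLaw := h1
      psh := (fill_psh F).comp h2
      mem := h3 } with hy0
  have h5 : y0.val om ≤ (1 + om) * ((fill F).Vf + ε) - CH F.p F.l F.Z := by
    have h6 := ent_ge y0
    have h7 : CH y0.p y0.B (fun e => F.Z (y0.pr e)) + y0.vol ≤ (fill F).Vf + ε := h4
    have h8 := CH_nonneg y0.isLaw.nonneg y0.B (fun e => F.Z (y0.pr e))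
    have h9 : om * y0.vol ≤ om * ((fill F).Vf + ε) :=
      mul_le_mul_of_nonneg_left (by linarith) hom
    unfold Nlb.val
    linarith
  have hbdd : BddBelow (Set.range (fun y : Nlb C F => y.val om)) :=
    ⟨-((1 + om) * ε) - CH F.p F.l F.Z, by
      rintro _ ⟨y, rfl⟩
      exact y.val_ge hb hom⟩
  have hne : (Set.range (fun y : Nlb C F => y.val om)).Nonempty := ⟨_, y0, rfl⟩
  rcases le_or_gt (y0.val om) (sInf (Set.range (fun y : Nlb C F => y.val om)) + δ) with h | h
  · refine ⟨y0, fun y' => ?_, h5⟩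
    have := csInf_le hbdd ⟨y', rfl⟩
    linarith
  · obtain ⟨_, ⟨y, rfl⟩, hy⟩ := exists_lt_of_csInf_lt hne
      (lt_add_of_pos_right (sInf (Set.range (fun y : Nlb C F => y.val om))) hδ)
    refine ⟨y, fun y' => ?_, ?_⟩
    · have := csInf_le hbdd ⟨y', rfl⟩
      simp only at hy
      linarith
    · simp only at hy
      linarith

/-- **(CORE, one level, in a box.)** There is a noisy label with small cost, which is full, and all
chains which start from its points mix. -/
theorem core {D : (Fin m → ℝ) × (Fin m → ℝ) → Prop} {ε om δ : ℝ} (hb : Box C J D ε)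
    (hD : ∀ ω, 0 < F.p ω → D (F.l ω)) (hom : 0 ≤ om) (hδ : 0 < δ) :
    ∃ y : Nlb C F,
      (CH F.p F.l F.Z - y.ent) + (1 + om) * y.vol ≤ (1 + om) * ((fill F).Vf + ε) ∧
      y.vol - (fill y.fam).Vf ≤ ε + δ ∧
      ∀ (N : ℕ), 0 < N → ∀ (W : Type) (_ : Fintype W) (q : W → ℝ)
        (o o' : ℕ → W → y.E × Fin (2 ^ J))
        (l : ℕ → W → ((Fin m → ℝ) × (Fin m → ℝ)) × (C.V J × F.ζ))
        (v : ℕ → W → ((Fin m → ℤ) × ℕ) × (C.V J × F.ζ)),
        IsChain (fill y.fam).p y.lam y.x N q o o' l v →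
        om * (CH q (v 0) (fun w => (v 0 w).2) - CH q (v 0) (v N)) ≤
          2 * (1 + om) * ε + ((fill y.fam).Vf + J * Real.log 2) / N + δ := by
  obtain ⟨y, h1, h2⟩ := opt (C := C) (F := F) hb hD hom hδ
  have hmix : ∀ (N : ℕ), 0 < N → ∀ (W : Type) (_ : Fintype W) (q : W → ℝ)
        (o o' : ℕ → W → y.E × Fin (2 ^ J))
        (l : ℕ → W → ((Fin m → ℝ) × (Fin m → ℝ)) × (C.V J × F.ζ))
        (v : ℕ → W → ((Fin m → ℤ) × ℕ) × (C.V J × F.ζ)),
        IsChain (fill y.fam).p y.lam y.x N q o o' l v →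
      (1 + om) * (y.vol - (fill y.fam).Vf) +
      om * (CH q (v 0) (fun w => (v 0 w).2) - CH q (v 0) (v N)) ≤
      (1 + om) * ε + ((fill y.fam).Vf + J * Real.log 2) / N + δ :=
    fun N hN W _ q o o' l v hc => mix hb hD hom h1 hN hc
  have hV : 0 ≤ (fill y.fam).Vf := by
    rw [fill_Vf]
    exact CH_nonneg (fill y.fam).isLaw.nonneg _ _
  refine ⟨y, ?_, ?_, ?_⟩
  · unfold Nlb.val at h2
    linarith
  · -- a label of the family with the optimal label as side information
    have hD' : ∀ e, 0 < (fill y.fam).p e → D ((fill y.fam).l e) := fun e he =>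
      hD _ (y.psh.pos y.isLaw.nonneg (un_pos he))
    obtain ⟨E, hE, p', pr, B, k1, k2, k3, k4⟩ := hb.lab (fill y.fam) hD' (fill_Tm y.fam)
    set y2 : Nlb C F :=
      { E := E
        fin := hE
        p := p'
        pr := fun e => y.pr (pr e).1
        B := B
        isLaw := k1
        psh := y.psh.comp ((fill_psh y.fam).comp k2)
        mem := k3 } with hy2
    have h20 := k1.nonneg
    have h5 := h1 y2
    have h6 : CH p' B (fun e => y.z (pr e).1) + y2.vol ≤ (fill y.fam).Vf + ε := k4
    have h9 : y2.ent ≥ y.ent - CH p' B (fun e => y.z (pr e).1) := by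
      have q1 : y2.ent ≥ CH p' (fun e => F.l (y.pr (pr e).1)) (fun e => (B e, y.z (pr e).1)) := by
        refine CH_mono_cond h20 ?_
        intro e e' he he' h
        refine Prod.ext (Prod.ext_iff.mp h).1 ?_
        have h12 := congrArg Prod.snd (Prod.ext_iff.mp h).2
        exact h12
      have q2 := CH_chain h20 B (fun e => F.l (y.pr (pr e).1)) (fun e => y.z (pr e).1)
      have q3 := CH_chain h20 (fun e => F.l (y.pr (pr e).1)) B (fun e => y.z (pr e).1)
      have q4 : CH p' (fun e => F.l (y.pr (pr e).1)) (fun e => y.z (pr e).1) = y.ent :=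
        ((fill_psh y.fam).comp k2).CH_eq (fun e => F.l (y.pr e)) y.z
      have q5 : CH p' (fun e => F.l (y.pr (pr e).1)) (fun e => y.z (pr e).1) ≤
          CH p' (fun e => (F.l (y.pr (pr e).1), B e)) (fun e => y.z (pr e).1) :=
        CH_mono_left h20 (fun e e' _ _ h => congrArg Prod.fst (Prod.ext_iff.mp h).1)
      linarith
    have h11 := CH_nonneg h20 B (fun e => y.z (pr e).1)
    unfold Nlb.val at h5
    have h12 : om * y2.vol ≤ om * ((fill y.fam).Vf + ε) :=
      mul_le_mul_of_nonneg_left (by linarith) hom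
    have h13 : (1 + om) * (y.vol - (fill y.fam).Vf - ε) ≤ δ := by linarith
    have h14 : y.vol - (fill y.fam).Vf - ε ≤ δ := by
      rcases le_or_gt (y.vol - (fill y.fam).Vf - ε) 0 with h | h
      · linarith
      · nlinarith
    linarith
  · intro N hN W _ q o o' l v hc
    have h3 := hmix N hN W _ q o o' l v hc
    have h4 := y.le_vol hb
    have h5 : (1 + om) * (-ε) ≤ (1 + om) * (y.vol - (fill y.fam).Vf) :=
      mul_le_mul_of_nonneg_left (by linarith) (by linarith)
    linarith

end Pool.FTM
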