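import Pool.Agent.H10.FTM.Mix

/-!
# Optimal noisy labels: fullness and mixing for general points and prices

The same as `Pool.FTM.core`, for arbitrary point cells (a function of the line and of the time,
with a weight), and for prices which are functions of the label and of the line.
-/

set_option autoImplicit false

namespace Pool.FTM

open Finset Real
open Pool.Agent.H49.Ent Pool.Agent.H32.Dense Pool.STK Pool.KA Pool.KM7 Pool.KS3

variable {m J : ℕ}

/-- Point cells with weights, and labels with prices. -/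
structure Sys (m : ℕ) : Type 1 where
  /-- the values of the point cells -/
  Ξ : Type
  /-- the point cell of a line at a time -/
  pt : (Fin m → ℝ) × (Fin m → ℝ) → ℕ → Ξ
  /-- the weight of the point cell -/
  wt : (Fin m → ℝ) × (Fin m → ℝ) → ℕ → ℝ
  /-- the values of the labels -/
  V : Type
  /-- the lines with a given label -/
  LL : V → (Fin m → ℝ) × (Fin m → ℝ) → Prop
  /-- the price -/
  c : V → (Fin m → ℝ) × (Fin m → ℝ) → ℝ

/-- The information of the point cell, minus the weight. -/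
noncomputable def Sys.inf (S : Sys m) (G : Fam m J) : ℝ :=
  CH G.p (fun ω => (S.pt (G.l ω) (G.T ω), G.T ω)) G.Z - CH G.p G.T (fun ω => (G.l ω, G.Z ω)) -
    Ex G.p (fun ω => S.wt (G.l ω) (G.T ω))

/-- A copy of the family has a label with cost at most `x`. -/
def Sys.Has (S : Sys m) (G : Fam m J) (x : ℝ) : Prop :=
  ∃ (E : Type) (_ : Fintype E) (p' : E → ℝ) (pr : E → G.Ω) (B : E → S.V),
    IsLaw p' ∧ Psh p' pr G.p ∧ (∀ e, 0 < p' e → S.LL (B e) (G.l (pr e))) ∧
    CH p' B (fun e => G.Z (pr e)) + Ex p' (fun e => S.c (B e) (G.l (pr e))) ≤ x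

/-- The label theorem, for the families with lines in `D` and uniform times and any side
information, with the error `ε`. -/
def Sys.Box (S : Sys m) (J : ℕ) (D : (Fin m → ℝ) × (Fin m → ℝ) → Prop) (ε : ℝ) : Prop :=
  ∀ G : Fam m J, (∀ ω, 0 < G.p ω → D (G.l ω)) → G.Tm 0 → S.Has G (S.inf G + ε)

/-- A noisy label: a label on a copy of the family. -/
structure SNlb (S : Sys m) (F : Fam m J) : Type 1 where
  /-- the copy -/
  E : Type
  fin : Fintype E
  /-- the law on the copy -/
  p : E → ℝ
  /-- the projection -/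
  pr : E → F.Ω
  /-- the label -/
  B : E → S.V
  isLaw : IsLaw p
  psh : Psh p pr F.p
  mem : ∀ e, 0 < p e → S.LL (B e) (F.l (pr e))

attribute [instance] SNlb.fin

variable {S : Sys m} {F : Fam m J}

/-- The label with the side information. -/
def SNlb.z (y : SNlb S F) (e : y.E) : S.V × F.ζ := (y.B e, F.Z (y.pr e))

/-- The entropy of the line given the label and the side information. -/
noncomputable def SNlb.ent (y : SNlb S F) : ℝ := CH y.p (fun e => F.l (y.pr e)) y.z

/-- The mean price. -/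
noncomputable def SNlb.vol (y : SNlb S F) : ℝ := Ex y.p (fun e => S.c (y.B e) (F.l (y.pr e)))

/-- The cost, minus the entropy of the line given the side information, plus `om` times the
price. -/
noncomputable def SNlb.val (om : ℝ) (y : SNlb S F) : ℝ := (1 + om) * y.vol - y.ent

/-- The family with the label as side information. -/
def SNlb.fam (y : SNlb S F) : Fam m J := (F.ext y.p y.isLaw y.pr).cnd y.B

/-- The information of the point cell given the label, minus the weight, with filled times. -/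
noncomputable def SNlb.inf (y : SNlb S F) : ℝ := S.inf (fill y.fam)

/-- The entropy of the point cell and of the time given the label, with filled times. -/
noncomputable def SNlb.hpt (y : SNlb S F) : ℝ :=
  CH (fill y.fam).p (fun e => (S.pt ((fill y.fam).l e) ((fill y.fam).T e), (fill y.fam).T e))
    (fill y.fam).Z

/-- The mean weight, with filled times. -/
noncomputable def SNlb.mwt (y : SNlb S F) : ℝ :=
  Ex (fill y.fam).p (fun e => S.wt ((fill y.fam).l e) ((fill y.fam).T e))

/-- The line and the label, on the incidences. -/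
def SNlb.lam (y : SNlb S F) (e : y.E × Fin (2 ^ J)) :
    ((Fin m → ℝ) × (Fin m → ℝ)) × (S.V × F.ζ) := (F.l (y.pr e.1), y.z e.1)

/-- The point cell and the label, on the incidences. -/
def SNlb.x (y : SNlb S F) (e : y.E × Fin (2 ^ J)) :
    (S.Ξ × ℕ) × (S.V × F.ζ) := ((S.pt (F.l (y.pr e.1)) (e.2 : ℕ), (e.2 : ℕ)), y.z e.1)

theorem SNlb.inf_eq (y : SNlb S F) : y.inf = y.hpt - J * Real.log 2 - y.mwt := by
  have h4 : CH (fill y.fam).p (fill y.fam).T (fun e => ((fill y.fam).l e, (fill y.fam).Z e)) =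
      J * Real.log 2 := fill_T y.fam (fun e => (y.fam.l e, y.fam.Z e))
  unfold SNlb.inf Sys.inf
  rw [h4]
  rfl

theorem SNlb.hpt_nonneg (y : SNlb S F) : 0 ≤ y.hpt := CH_nonneg (fill y.fam).isLaw.nonneg _ _

section Chain

variable (y : SNlb S F) {N : ℕ} {W : Type} [Fintype W] {q : W → ℝ}
  {o o' : ℕ → W → y.E × Fin (2 ^ J)}
  {l : ℕ → W → ((Fin m → ℝ) × (Fin m → ℝ)) × (S.V × F.ζ)}
  {v : ℕ → W → (S.Ξ × ℕ) × (S.V × F.ζ)}

/-- The family of the line number `j` of the chain with the time of the next point; the side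
information is the first point. -/
def schf (hq : IsLaw q) (e : W → y.E × Fin (2 ^ J)) (z : W → (S.Ξ × ℕ) × (S.V × F.ζ)) :
    Fam m J where
  Ω := W
  ζ := (S.Ξ × ℕ) × (S.V × F.ζ)
  fin := inferInstance
  p := q
  u := fun w => F.u (y.pr (e w).1)
  d := fun w => F.d (y.pr (e w).1)
  T := fun w => (e w).2
  Z := z
  isLaw := hq
  dir := fun w => F.dir (y.pr (e w).1)
  tim := fun w => (e w).2.isLt

variable {y}

theorem slab_cst (hc : IsChain (fill y.fam).p y.lam y.x N q o o' l v) {w : W} (hw : 0 < q w) :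
    ∀ i ≤ N, (v i w).2 = (v 0 w).2 := by
  intro i
  induction i with
  | zero => exact fun _ => rfl
  | succ i ih =>
    intro hi
    have h1 := ih (by omega)
    have h2 := hc.start w hw i (by omega)
    have h3 := hc.line w hw i (by omega)
    have h4 := hc.line' w hw i (by omega)
    have h5 := hc.stop w hw i (by omega)
    rw [← h1, ← h2, ← h5]
    have h6 : (y.lam (o' i w)).2 = (y.lam (o i w)).2 := by rw [h3, h4]
    exact h6

theorem slab_l (hc : IsChain (fill y.fam).p y.lam y.x N q o o' l v) {w : W} (hw : 0 < q w) {i : ℕ}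
    (hi : i < N) : (l i w).2 = (v 0 w).2 := by
  rw [← slab_cst hc hw i hi.le, ← hc.line w hw i hi, ← hc.start w hw i hi]
  rfl

theorem slab_o' (hc : IsChain (fill y.fam).p y.lam y.x N q o o' l v) {w : W} (hw : 0 < q w) {i : ℕ}
    (hi : i < N) : y.z (o' i w).1 = (v 0 w).2 := by
  rw [← slab_l hc hw hi, ← hc.line' w hw i hi]
  rfl

/-- The entropy of the line given the first point. -/
theorem sent_l (hc : IsChain (fill y.fam).p y.lam y.x N q o o' l v) {j : ℕ} (hj : j < N) :
    CH q (fun w => F.l (y.pr (o' j w).1)) (v 0) =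
      y.ent - (CH q (v 0) (fun w => (v 0 w).2) - CH q (v 0) (l j)) := by
  have hq0 := hc.isLaw.nonneg
  have hM := hc.marg' j hj
  have e1 : CH q (fun w => F.l (y.pr (o' j w).1)) (v 0) = CH q (l j) (v 0) := by
    refine CH_congr hq0 ?_ ?_ (fun _ _ _ _ h => h) (fun _ _ _ _ h => h)
    · intro w w' hw hw' h
      have h1 := (Prod.ext_iff.mp h).1
      have h2 := (Prod.ext_iff.mp h).2
      refine Prod.ext ?_ ?_
      · rw [← hc.line' w hw j hj, ← hc.line' w' hw' j hj]
        exact h1
      · rw [slab_l hc hw hj, slab_l hc hw' hj]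
        exact congrArg Prod.snd h2
    · intro w w' hw hw' h
      have h1 := (Prod.ext_iff.mp h).1
      simp only at h1
      rw [← hc.line' w hw j hj, ← hc.line' w' hw' j hj] at h1
      exact congrArg Prod.fst h1
  have e2 := CH_mi hq0 (A := l j) (B := v 0) (Z := fun w => (v 0 w).2)
    (fun w w' hw hw' h => by
      have h1 := congrArg Prod.snd h
      rw [slab_l hc hw hj, slab_l hc hw' hj] at h1
      exact h1) (fun w w' _ _ h => congrArg Prod.snd h)
  have e3 : CH q (l j) (fun w => (v 0 w).2) = y.ent := by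
    have h1 : CH q (l j) (fun w => (v 0 w).2) =
        CH q (fun w => y.lam (o' j w)) (fun w => y.z (o' j w).1) := by
      refine CH_congr hq0 ?_ ?_ ?_ ?_
      · intro w w' hw hw' h
        have h1 := (Prod.ext_iff.mp h).1
        simp only at h1 ⊢
        rw [hc.line' w hw j hj, hc.line' w' hw' j hj]
        exact h1
      · intro w w' hw hw' h
        have h1 := (Prod.ext_iff.mp h).1
        simp only at h1 ⊢
        rw [← hc.line' w hw j hj, ← hc.line' w' hw' j hj]
        exact h1
      · intro w w' hw hw' h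
        simp only at h ⊢
        rw [slab_o' hc hw hj, slab_o' hc hw' hj]
        exact h
      · intro w w' hw hw' h
        simp only at h ⊢
        rw [slab_o' hc hw hj, slab_o' hc hw' hj] at h
        exact h
    rw [h1]
    have h2 := hM.CH y.lam (fun e => y.z e.1)
    rw [h2]
    have h3 := (un_psh (two_pos J) y.p).CH_eq (fun e => (F.l (y.pr e), y.z e)) y.z
    have h4 : CH (fill y.fam).p y.lam (fun e => y.z e.1) =
        CH y.p (fun e => (F.l (y.pr e), y.z e)) y.z := h3
    rw [h4]
    unfold SNlb.ent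
    refine CH_congr y.isLaw.nonneg ?_ ?_ (fun _ _ _ _ h => h) (fun _ _ _ _ h => h)
    · intro e e' _ _ h
      exact congrArg Prod.fst (Prod.ext_iff.mp h).1
    · intro e e' _ _ h
      exact Prod.ext (Prod.ext_iff.mp h).1 (Prod.ext_iff.mp h).2
  linarith

/-- The entropy of a point given the first point. -/
theorem sent_v (hc : IsChain (fill y.fam).p y.lam y.x N q o o' l v) {j : ℕ} (hj : j < N) :
    CH q (v (j + 1)) (v 0) = y.hpt -
      (CH q (v 0) (fun w => (v 0 w).2) - CH q (v 0) (v (j + 1))) := by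
  have hq0 := hc.isLaw.nonneg
  have hM := hc.marg' j hj
  have e2 := CH_mi hq0 (A := v (j + 1)) (B := v 0) (Z := fun w => (v 0 w).2)
    (fun w w' hw hw' h => by
      have h1 := congrArg Prod.snd h
      rw [slab_cst hc hw _ hj, slab_cst hc hw' _ hj] at h1
      exact h1) (fun w w' _ _ h => congrArg Prod.snd h)
  have e3 : CH q (v (j + 1)) (fun w => (v 0 w).2) = y.hpt := by
    have h1 : CH q (v (j + 1)) (fun w => (v 0 w).2) =
        CH q (fun w => y.x (o' j w)) (fun w => y.z (o' j w).1) := by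
      refine CH_congr hq0 ?_ ?_ ?_ ?_
      · intro w w' hw hw' h
        have h1 := (Prod.ext_iff.mp h).1
        simp only at h1 ⊢
        rw [hc.stop w hw j hj, hc.stop w' hw' j hj]
        exact h1
      · intro w w' hw hw' h
        have h1 := (Prod.ext_iff.mp h).1
        simp only at h1 ⊢
        rw [← hc.stop w hw j hj, ← hc.stop w' hw' j hj]
        exact h1
      · intro w w' hw hw' h
        simp only at h ⊢
        rw [slab_o' hc hw hj, slab_o' hc hw' hj]
        exact h
      · intro w w' hw hw' h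
        simp only at h ⊢
        rw [slab_o' hc hw hj, slab_o' hc hw' hj] at h
        exact h
    rw [h1]
    have h2 := hM.CH y.x (fun e => y.z e.1)
    rw [h2]
    exact CH_congr (fill y.fam).isLaw.nonneg
      (fun e e' _ _ h => congrArg Prod.fst (Prod.ext_iff.mp h).1)
      (fun e e' _ _ h => Prod.ext (Prod.ext_iff.mp h).1 (Prod.ext_iff.mp h).2)
      (fun _ _ _ _ h => h) (fun _ _ _ _ h => h)
  linarith

/-- The entropy of the first point given the label. -/
theorem sent_0 (hN : 0 < N) (hc : IsChain (fill y.fam).p y.lam y.x N q o o' l v) :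
    CH q (v 0) (fun w => (v 0 w).2) = y.hpt := by
  have hq0 := hc.isLaw.nonneg
  have hM := hc.marg 0 hN
  have h1 : CH q (v 0) (fun w => (v 0 w).2) =
      CH q (fun w => y.x (o 0 w)) (fun w => y.z (o 0 w).1) := by
    refine CH_congr hq0 ?_ ?_ ?_ ?_
    · intro w w' hw hw' h
      have h1 := (Prod.ext_iff.mp h).1
      simp only at h1 ⊢
      rw [hc.start w hw 0 hN, hc.start w' hw' 0 hN]
      exact h1
    · intro w w' hw hw' h
      have h1 := (Prod.ext_iff.mp h).1
      simp only at h1 ⊢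
      rw [← hc.start w hw 0 hN, ← hc.start w' hw' 0 hN]
      exact h1
    · intro w w' hw hw' h
      simp only at h ⊢
      rw [← hc.start w hw 0 hN, ← hc.start w' hw' 0 hN] at h
      exact h
    · intro w w' hw hw' h
      simp only at h ⊢
      rw [← hc.start w hw 0 hN, ← hc.start w' hw' 0 hN]
      exact h
  rw [h1]
  have h2 := hM.CH y.x (fun e => y.z e.1)
  rw [h2]
  exact CH_congr (fill y.fam).isLaw.nonneg
    (fun e e' _ _ h => congrArg Prod.fst (Prod.ext_iff.mp h).1)
    (fun e e' _ _ h => Prod.ext (Prod.ext_iff.mp h).1 (Prod.ext_iff.mp h).2)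
    (fun _ _ _ _ h => h) (fun _ _ _ _ h => h)

/-- The times of the family of the line number `j` are uniform. -/
theorem schf_T (hc : IsChain (fill y.fam).p y.lam y.x N q o o' l v) {j : ℕ} (hj : j < N) :
    CH q (schf y hc.isLaw (o' j) (v 0)).T
      (fun w => ((schf y hc.isLaw (o' j) (v 0)).l w, v 0 w)) = J * Real.log 2 := by
  have hq0 := hc.isLaw.nonneg
  have hM := hc.marg' j hj
  have h1 : CI q (v 0) (fun w => ((o' j w).2 : ℕ)) (l j) := by
    refine CI_of_le hq0 ?_
    rw [← hc.ci2 j hj]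
    refine CH_mono_cond hq0 ?_
    intro w w' hw hw' h
    simp only [Prod.mk.injEq] at h ⊢
    refine ⟨?_, h.1⟩
    have h2 : (v (j + 1) w).1.2 = (v (j + 1) w').1.2 := by rw [h.2.1]
    rw [← hc.stop w hw j hj, ← hc.stop w' hw' j hj] at h2
    exact h2
  have h2 := h1.symm hq0
  unfold CI at h2
  have h3 : CH q (schf y hc.isLaw (o' j) (v 0)).T
      (fun w => ((schf y hc.isLaw (o' j) (v 0)).l w, v 0 w)) =
      CH q (fun w => ((o' j w).2 : ℕ)) (fun w => (v 0 w, l j w)) := by
    refine CH_congr hq0 (fun _ _ _ _ h => (Prod.ext_iff.mp h).1)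
      (fun _ _ _ _ h => (Prod.ext_iff.mp h).1) ?_ ?_
    · intro w w' hw hw' h
      have h5 := (Prod.ext_iff.mp h).1
      have h6 := (Prod.ext_iff.mp h).2
      refine Prod.ext h6 (Prod.ext ?_ ?_)
      · simp only
        rw [← hc.line' w hw j hj, ← hc.line' w' hw' j hj]
        exact h5
      · simp only
        rw [slab_l hc hw hj, slab_l hc hw' hj]
        exact congrArg Prod.snd h6
    · intro w w' hw hw' h
      have h5 := (Prod.ext_iff.mp h).1
      have h6 := (Prod.ext_iff.mp h).2
      refine Prod.ext ?_ h5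
      simp only at h6
      rw [← hc.line' w hw j hj, ← hc.line' w' hw' j hj] at h6
      have h7 := congrArg Prod.fst h6
      exact h7
  rw [h3, h2]
  have h4 : CH q (fun w => ((o' j w).2 : ℕ)) (l j) =
      CH q (fun w => ((o' j w).2 : ℕ)) (fun w => y.lam (o' j w)) := by
    refine CH_congr hq0 (fun _ _ _ _ h => (Prod.ext_iff.mp h).1)
      (fun _ _ _ _ h => (Prod.ext_iff.mp h).1) ?_ ?_
    · intro w w' hw hw' h
      simp only at h ⊢
      rw [hc.line' w hw j hj, hc.line' w' hw' j hj]
      exact h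
    · intro w w' hw hw' h
      simp only at h ⊢
      rw [hc.line' w hw j hj, hc.line' w' hw' j hj] at h
      exact h
  rw [h4, hM.CH (fun e => (e.2 : ℕ)) y.lam]
  exact fill_T y.fam (fun e => (F.l (y.pr e), y.z e))

/-- **One step.** -/
theorem smix_one {D : (Fin m → ℝ) × (Fin m → ℝ) → Prop} {ε om δ : ℝ} (hb : S.Box J D ε)
    (hD : ∀ ω, 0 < F.p ω → D (F.l ω)) (hom : 0 ≤ om)
    (hopt : ∀ y' : SNlb S F, y.val om ≤ y'.val om + δ)
    (hc : IsChain (fill y.fam).p y.lam y.x N q o o' l v) {j : ℕ} (hj : j < N) :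
    (1 + om) * (y.vol - y.inf) +
      om * (CH q (v 0) (fun w => (v 0 w).2) - CH q (v 0) (v (j + 1))) ≤
      (1 + om) * ε + (CH q (v 0) (v (j + 1)) - CH q (v 0) (l j)) + δ := by
  have hq0 := hc.isLaw.nonneg
  have hM := hc.marg' j hj
  have hT := schf_T hc hj
  have hpos : ∀ w, 0 < q w → 0 < y.p (o' j w).1 := fun w hw => un_pos (hM.pos hq0 hw)
  obtain ⟨E2, hE2, p2, pr2, B2, h1, h2, h3, h4⟩ := hb (schf y hc.isLaw (o' j) (v 0))
    (fun w hw => hD _ (y.psh.pos y.isLaw.nonneg (hpos w hw)))
    (by unfold Fam.Tm; rw [sub_zero]; exact hT.ge)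
  have h20 := h1.nonneg
  set y2 : SNlb S F :=
    { E := E2
      fin := hE2
      p := p2
      pr := fun e => y.pr (o' j (pr2 e)).1
      B := B2
      isLaw := h1
      psh := y.psh.comp ((fill_psh y.fam).comp ((psh_of_marg hM).comp h2))
      mem := h3 } with hy2
  have h5 := hopt y2
  have h6 : S.inf (schf y hc.isLaw (o' j) (v 0)) ≤
      CH q (v (j + 1)) (v 0) - J * Real.log 2 - y.mwt := by
    unfold Sys.inf
    have h7 : CH (schf y hc.isLaw (o' j) (v 0)).p
        (fun w => (S.pt ((schf y hc.isLaw (o' j) (v 0)).l w) ((schf y hc.isLaw (o' j) (v 0)).T w),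
          (schf y hc.isLaw (o' j) (v 0)).T w)) (schf y hc.isLaw (o' j) (v 0)).Z ≤
        CH q (v (j + 1)) (v 0) := by
      refine CH_mono_left hq0 ?_
      intro w w' hw hw' h
      have h8 := (Prod.ext_iff.mp h).1
      simp only at h8
      rw [← hc.stop w hw j hj, ← hc.stop w' hw' j hj] at h8
      exact congrArg Prod.fst h8
    have h8 : CH (schf y hc.isLaw (o' j) (v 0)).p (schf y hc.isLaw (o' j) (v 0)).T
        (fun ω => ((schf y hc.isLaw (o' j) (v 0)).l ω,
          (schf y hc.isLaw (o' j) (v 0)).Z ω)) = J * Real.log 2 := hT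
    have h9 : Ex (schf y hc.isLaw (o' j) (v 0)).p (fun ω =>
        S.wt ((schf y hc.isLaw (o' j) (v 0)).l ω) ((schf y hc.isLaw (o' j) (v 0)).T ω)) = y.mwt :=
      hM.ex (fun e : y.E × Fin (2 ^ J) => S.wt (F.l (y.pr e.1)) (e.2 : ℕ))
    linarith
  have h7 := sent_v hc hj
  have h8 := sent_l hc hj
  have h9 : y2.ent ≥ CH q (fun w => F.l (y.pr (o' j w).1)) (v 0) -
      CH p2 B2 (fun e => v 0 (pr2 e)) := by
    have k1 : y2.ent ≥ CH p2 (fun e => F.l (y.pr (o' j (pr2 e)).1))
        (fun e => (B2 e, v 0 (pr2 e))) := by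
      refine CH_mono_cond h20 ?_
      intro e e' he he' h
      have h10 := (Prod.ext_iff.mp h).1
      have h11 := (Prod.ext_iff.mp h).2
      refine Prod.ext h10 ?_
      have h12 := congrArg Prod.snd h11
      simp only at h12
      rw [← slab_o' hc (h2.pos h20 he) hj, ← slab_o' hc (h2.pos h20 he') hj] at h12
      have h13 := congrArg Prod.snd h12
      exact h13
    have k2 := CH_chain h20 B2 (fun e => F.l (y.pr (o' j (pr2 e)).1)) (fun e => v 0 (pr2 e))
    have k3 := CH_chain h20 (fun e => F.l (y.pr (o' j (pr2 e)).1)) B2 (fun e => v 0 (pr2 e))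
    have k4 : CH p2 (fun e => F.l (y.pr (o' j (pr2 e)).1)) (fun e => v 0 (pr2 e)) =
        CH q (fun w => F.l (y.pr (o' j w).1)) (v 0) :=
      h2.CH_eq (fun w => F.l (y.pr (o' j w).1)) (v 0)
    have k5 : CH p2 (fun e => F.l (y.pr (o' j (pr2 e)).1)) (fun e => v 0 (pr2 e)) ≤
        CH p2 (fun e => (F.l (y.pr (o' j (pr2 e)).1), B2 e)) (fun e => v 0 (pr2 e)) :=
      CH_mono_left h20 (fun e e' _ _ h => by
        have h10 := (Prod.ext_iff.mp h).1
        exact congrArg Prod.fst h10)
    linarith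
  have h10 : CH p2 B2 (fun e => v 0 (pr2 e)) + y2.vol ≤
      S.inf (schf y hc.isLaw (o' j) (v 0)) + ε := h4
  have h11 := CH_nonneg h20 B2 (fun e => v 0 (pr2 e))
  have h14 := y.inf_eq
  unfold SNlb.val at h5
  have h12 : om * y2.vol ≤ om * (S.inf (schf y hc.isLaw (o' j) (v 0)) + ε) :=
    mul_le_mul_of_nonneg_left (by linarith) hom
  have h13 : om * S.inf (schf y hc.isLaw (o' j) (v 0)) ≤
      om * (CH q (v (j + 1)) (v 0) - J * Real.log 2 - y.mwt) := mul_le_mul_of_nonneg_left h6 hom
  rw [h14]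
  nlinarith

/-- **(FULL + MIX)** An optimal noisy label is full, and the chain mixes. -/
theorem smix {D : (Fin m → ℝ) × (Fin m → ℝ) → Prop} {ε om δ : ℝ} (hb : S.Box J D ε)
    (hD : ∀ ω, 0 < F.p ω → D (F.l ω)) (hom : 0 ≤ om)
    (hopt : ∀ y' : SNlb S F, y.val om ≤ y'.val om + δ) (hN : 0 < N)
    (hc : IsChain (fill y.fam).p y.lam y.x N q o o' l v) :
    (1 + om) * (y.vol - y.inf) +
      om * (CH q (v 0) (fun w => (v 0 w).2) - CH q (v 0) (v N)) ≤
      (1 + om) * ε + y.hpt / N + δ := by
  have hq0 := hc.isLaw.nonneg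
  have hab : ∀ i < N, CH q (v 0) (v i) ≤ CH q (v 0) (l i) := by
    intro i hi
    rw [← hc.ci1 i hi]
    exact CH_mono_cond hq0 fun _ _ _ _ h => congrArg Prod.snd h
  have hba : ∀ i < N, CH q (v 0) (l i) ≤ CH q (v 0) (v (i + 1)) := by
    intro i hi
    rw [← hc.ci2 i hi]
    refine CH_mono_cond hq0 fun _ _ _ _ h => ?_
    exact congrArg Prod.fst (congrArg Prod.snd h)
  have hmono : ∀ k, ∀ i, i + k ≤ N → CH q (v 0) (v i) ≤ CH q (v 0) (v (i + k)) := by
    intro k
    induction k with
    | zero => exact fun _ _ => le_rfl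
    | succ k ih =>
      intro i hi
      exact (ih i (by omega)).trans ((hab (i + k) (by omega)).trans (hba (i + k) (by omega)))
  have hlab : CH q (v 0) (v N) ≤ CH q (v 0) (fun w => (v 0 w).2) :=
    CH_mono_cond hq0 fun w w' hw hw' h => by
      rw [← slab_cst hc hw N le_rfl, ← slab_cst hc hw' N le_rfl, h]
  rw [sent_0 hN hc] at hlab
  obtain ⟨j, hj, hj'⟩ := pig (fun i => CH q (v 0) (v i)) (fun i => CH q (v 0) (l i)) hN
    (CH_nonneg hq0 _ _) hab hlab
  have h1 := smix_one hb hD hom hopt hc hj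
  have h2 := hmono (N - (j + 1)) (j + 1) (by omega)
  rw [show j + 1 + (N - (j + 1)) = N by omega] at h2
  have h3 : om * CH q (v 0) (v (j + 1)) ≤ om * CH q (v 0) (v N) :=
    mul_le_mul_of_nonneg_left h2 hom
  linarith

end Chain

/-- The information of the label about the line, given the side information, is at most the
entropy of the label. -/
theorem sent_ge (y : SNlb S F) :
    CH F.p F.l F.Z - CH y.p y.B (fun e => F.Z (y.pr e)) ≤ y.ent := by
  have h0 := y.isLaw.nonneg
  have k2 := CH_chain h0 y.B (fun e => F.l (y.pr e)) (fun e => F.Z (y.pr e))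
  have k3 := CH_chain h0 (fun e => F.l (y.pr e)) y.B (fun e => F.Z (y.pr e))
  have k4 := y.psh.CH_eq F.l F.Z
  have k5 : CH y.p (fun e => F.l (y.pr e)) (fun e => F.Z (y.pr e)) ≤
      CH y.p (fun e => (F.l (y.pr e), y.B e)) (fun e => F.Z (y.pr e)) :=
    CH_mono_left h0 (fun e e' _ _ h => congrArg Prod.fst (Prod.ext_iff.mp h).1)
  have k6 : y.ent = CH y.p (fun e => F.l (y.pr e)) (fun e => (y.B e, F.Z (y.pr e))) := rfl
  linarith

theorem sent_le (y : SNlb S F) : y.ent ≤ CH F.p F.l F.Z := by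
  rw [← y.psh.CH_eq F.l F.Z]
  exact CH_mono_cond y.isLaw.nonneg fun _ _ _ _ h => congrArg Prod.snd h

/-- **Existence of optimal noisy labels.** The prices are bounded from below. -/
theorem sopt {D : (Fin m → ℝ) × (Fin m → ℝ) → Prop} {ε om δ M : ℝ} (hb : S.Box J D ε)
    (hM : ∀ v l, -M ≤ S.c v l)
    (hD : ∀ ω, 0 < F.p ω → D (F.l ω)) (hom : 0 ≤ om) (hδ : 0 < δ) :
    ∃ y : SNlb S F, (∀ y' : SNlb S F, y.val om ≤ y'.val om + δ) ∧
      y.val om ≤ (1 + om) * (S.inf (fill F) + ε) - CH F.p F.l F.Z := by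
  have hD' : ∀ e, 0 < (fill F).p e → D ((fill F).l e) := fun e he => hD e.1 (un_pos he)
  obtain ⟨E, hE, p', pr, B, h1, h2, h3, h4⟩ := hb (fill F) hD' (fill_Tm F)
  set y0 : SNlb S F :=
    { E := E
      fin := hE
      p := p'
      pr := fun e => (pr e).1
      B := B
      isLaw := h1
      psh := (fill_psh F).comp h2
      mem := h3 } with hy0
  have h5 : y0.val om ≤ (1 + om) * (S.inf (fill F) + ε) - CH F.p F.l F.Z := by
    have h6 := sent_ge y0
    have h7 : CH y0.p y0.B (fun e => F.Z (y0.pr e)) + y0.vol ≤ S.inf (fill F) + ε := h4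
    have h8 := CH_nonneg y0.isLaw.nonneg y0.B (fun e => F.Z (y0.pr e))
    have h9 : om * y0.vol ≤ om * (S.inf (fill F) + ε) :=
      mul_le_mul_of_nonneg_left (by linarith) hom
    unfold SNlb.val
    linarith
  have hbdd : BddBelow (Set.range (fun y : SNlb S F => y.val om)) :=
    ⟨(1 + om) * (-M) - CH F.p F.l F.Z, by
      rintro _ ⟨y, rfl⟩
      have h6 := sent_le y
      have h7 : -M ≤ y.vol := by
        have h8 := Ex_mono y.isLaw.nonneg (f := fun _ => -M)
          (g := fun e => S.c (y.B e) (F.l (y.pr e))) (fun e _ => hM _ _)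
        rw [Ex_const y.isLaw.sum_one] at h8
        exact h8
      have h9 : (1 + om) * (-M) ≤ (1 + om) * y.vol :=
        mul_le_mul_of_nonneg_left h7 (by linarith)
      simp only [SNlb.val]
      linarith⟩
  have hne : (Set.range (fun y : SNlb S F => y.val om)).Nonempty := ⟨_, y0, rfl⟩
  rcases le_or_gt (y0.val om) (sInf (Set.range (fun y : SNlb S F => y.val om)) + δ) with h | h
  · refine ⟨y0, fun y' => ?_, h5⟩
    have := csInf_le hbdd ⟨y', rfl⟩
    linarith
  · obtain ⟨_, ⟨y, rfl⟩, hy⟩ := exists_lt_of_csInf_lt hne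
      (lt_add_of_pos_right (sInf (Set.range (fun y : SNlb S F => y.val om))) hδ)
    refine ⟨y, fun y' => ?_, ?_⟩
    · have := csInf_le hbdd ⟨y', rfl⟩
      simp only at hy
      linarith
    · simp only at hy
      linarith

/-- **(FULL)** An optimal noisy label is full. -/
theorem sfull {D : (Fin m → ℝ) × (Fin m → ℝ) → Prop} {ε om δ : ℝ} (hb : S.Box J D ε)
    (hD : ∀ ω, 0 < F.p ω → D (F.l ω)) (hom : 0 ≤ om) {y : SNlb S F}
    (hopt : ∀ y' : SNlb S F, y.val om ≤ y'.val om + δ) :
    (1 + om) * (y.vol - y.inf) ≤ (1 + om) * ε + δ := by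
  have hD' : ∀ e, 0 < (fill y.fam).p e → D ((fill y.fam).l e) := fun e he =>
    hD _ (y.psh.pos y.isLaw.nonneg (un_pos he))
  obtain ⟨E, hE, p', pr, B, k1, k2, k3, k4⟩ := hb (fill y.fam) hD' (fill_Tm y.fam)
  set y2 : SNlb S F :=
    { E := E
      fin := hE
      p := p'
      pr := fun e => y.pr (pr e).1
      B := B
      isLaw := k1
      psh := y.psh.comp ((fill_psh y.fam).comp k2)
      mem := k3 } with hy2
  have h20 := k1.nonneg
  have h5 := hopt y2
  have h6 : CH p' B (fun e => y.z (pr e).1) + y2.vol ≤ y.inf + ε := k4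
  have h9 : y2.ent ≥ y.ent - CH p' B (fun e => y.z (pr e).1) := by
    have q1 : y2.ent ≥ CH p' (fun e => F.l (y.pr (pr e).1)) (fun e => (B e, y.z (pr e).1)) := by
      refine CH_mono_cond h20 ?_
      intro e e' he he' h
      refine Prod.ext (Prod.ext_iff.mp h).1 ?_
      have h12 := congrArg Prod.snd (Prod.ext_iff.mp h).2
      exact h12
    have q2 := CH_chain h20 B (fun e => F.l (y.pr (pr e).1)) (fun e => y.z (pr e).1)
    have q3 := CH_chain h20 (fun e => F.l (y.pr (pr e).1)) B (fun e => y.z (pr e).1)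
    have q4 : CH p' (fun e => F.l (y.pr (pr e).1)) (fun e => y.z (pr e).1) = y.ent :=
      ((fill_psh y.fam).comp k2).CH_eq (fun e => F.l (y.pr e)) y.z
    have q5 : CH p' (fun e => F.l (y.pr (pr e).1)) (fun e => y.z (pr e).1) ≤
        CH p' (fun e => (F.l (y.pr (pr e).1), B e)) (fun e => y.z (pr e).1) :=
      CH_mono_left h20 (fun e e' _ _ h => congrArg Prod.fst (Prod.ext_iff.mp h).1)
    linarith
  have h11 := CH_nonneg h20 B (fun e => y.z (pr e).1)
  unfold SNlb.val at h5
  have h12 : om * y2.vol ≤ om * (y.inf + ε) :=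
    mul_le_mul_of_nonneg_left (by linarith) hom
  linarith

/-- **(CORE, one level, in a box, general points and prices.)** `hcnt` is the bound of the number of
the point cells given a label, for the label in question. -/
theorem score {D : (Fin m → ℝ) × (Fin m → ℝ) → Prop} {ε om δ M : ℝ} (hb : S.Box J D ε)
    (hM : ∀ v l, -M ≤ S.c v l)
    (hD : ∀ ω, 0 < F.p ω → D (F.l ω)) (hom : 0 ≤ om) (hδ : 0 < δ) :
    ∃ y : SNlb S F,
      (CH F.p F.l F.Z - y.ent) + (1 + om) * y.vol ≤ (1 + om) * (S.inf (fill F) + ε) ∧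
      (1 + om) * (y.vol - y.inf) ≤ (1 + om) * ε + δ ∧
      ∀ ε' : ℝ, y.inf ≤ y.vol + ε' →
      ∀ (N : ℕ), 0 < N → ∀ (W : Type) (_ : Fintype W) (q : W → ℝ)
        (o o' : ℕ → W → y.E × Fin (2 ^ J))
        (l : ℕ → W → ((Fin m → ℝ) × (Fin m → ℝ)) × (S.V × F.ζ))
        (v : ℕ → W → (S.Ξ × ℕ) × (S.V × F.ζ)),
        IsChain (fill y.fam).p y.lam y.x N q o o' l v →
        om * (CH q (v 0) (fun w => (v 0 w).2) - CH q (v 0) (v N)) ≤
          (1 + om) * (ε + ε') + y.hpt / N + δ := by
  obtain ⟨y, h1, h2⟩ := sopt (S := S) (F := F) hb hM hD hom hδ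
  refine ⟨y, ?_, sfull hb hD hom h1, ?_⟩
  · unfold SNlb.val at h2
    linarith
  · intro ε' hε' N hN W _ q o o' l v hc
    have h3 := smix hb hD hom h1 hN hc
    have h5 : (1 + om) * (-ε') ≤ (1 + om) * (y.vol - y.inf) :=
      mul_le_mul_of_nonneg_left (by linarith) (by linarith)
    linarith

end Pool.FTM
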